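import Mathlib

/-!
# A thin Cantor set
-/

set_option autoImplicit false

namespace Pool.Agent.R860.HD

open Set Filter Topology

/-- The terms of the jump function. -/
noncomputable def ct (k : ℕ) (x : ℝ) : ℝ := (⌊2 ^ (k + 1) * x⌋ : ℝ) / 16 ^ (k + 1)

/-- The jump function. -/
noncomputable def ps (x : ℝ) : ℝ := 1 + ∑' k : ℕ, ct k x

theorem ct_nonneg {x : ℝ} (hx : 0 ≤ x) (k : ℕ) : 0 ≤ ct k x := by
  unfold ct
  have h1 : (0 : ℤ) ≤ ⌊2 ^ (k + 1) * x⌋ := Int.floor_nonneg.mpr (by positivity)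
  have h2 : (0 : ℝ) ≤ (⌊2 ^ (k + 1) * x⌋ : ℝ) := by exact_mod_cast h1
  positivity

theorem ct_le {x : ℝ} (hx : 0 ≤ x) (hx1 : x < 1) (k : ℕ) : ct k x ≤ 1 / 8 * (1 / 8) ^ k := by
  unfold ct
  have h1 : (⌊2 ^ (k + 1) * x⌋ : ℝ) ≤ 2 ^ (k + 1) * x := Int.floor_le _
  have h2 : (2 : ℝ) ^ (k + 1) * x ≤ 2 ^ (k + 1) * 1 := by gcongr
  rw [div_le_iff₀ (by positivity)]
  have h3 : (1 : ℝ) / 8 * (1 / 8) ^ k * 16 ^ (k + 1) = 2 ^ (k + 1) := by
    have e : (16 : ℝ) = 8 * 2 := by norm_num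
    rw [e, mul_pow, one_div, inv_pow, pow_succ (8 : ℝ) k]
    field_simp
  rw [h3]
  linarith

theorem geo8 : HasSum (fun k : ℕ => (1 : ℝ) / 8 * (1 / 8) ^ k) (1 / 7) := by
  have h := (hasSum_geometric_of_lt_one (by norm_num : (0 : ℝ) ≤ 1 / 8) (by norm_num)).mul_left
    (1 / 8 : ℝ)
  have e : (1 / 7 : ℝ) = 1 / 8 * (1 - 1 / 8)⁻¹ := by norm_num
  rw [e]
  exact h

theorem ct_summable {x : ℝ} (hx : 0 ≤ x) (hx1 : x < 1) : Summable fun k => ct k x :=
  Summable.of_nonneg_of_le (ct_nonneg hx) (ct_le hx hx1) geo8.summable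

theorem ps_ge {x : ℝ} (hx : 0 ≤ x) : 1 ≤ ps x := by
  unfold ps
  have : 0 ≤ ∑' k : ℕ, ct k x := tsum_nonneg (ct_nonneg hx)
  linarith

theorem ps_le {x : ℝ} (hx : 0 ≤ x) (hx1 : x < 1) : ps x ≤ 8 / 7 := by
  unfold ps
  have h1 := (ct_summable hx hx1).tsum_le_tsum (ct_le hx hx1) geo8.summable
  rw [geo8.tsum_eq] at h1
  linarith

theorem ct_mono (k : ℕ) {x y : ℝ} (hxy : x ≤ y) : ct k x ≤ ct k y := by
  unfold ct
  have h1 : ⌊2 ^ (k + 1) * x⌋ ≤ ⌊2 ^ (k + 1) * y⌋ := Int.floor_mono (by gcongr)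
  have h2 : (⌊2 ^ (k + 1) * x⌋ : ℝ) ≤ (⌊2 ^ (k + 1) * y⌋ : ℝ) := by exact_mod_cast h1
  gcongr

theorem ps_mono {x y : ℝ} (hx : 0 ≤ x) (hxy : x ≤ y) (hy : y < 1) : ps x ≤ ps y := by
  unfold ps
  have h1 := (ct_summable hx (by linarith)).tsum_le_tsum (fun k => ct_mono k hxy)
    (ct_summable (by linarith) hy)
  linarith

theorem ps_jump {x y : ℝ} (hx : 0 ≤ x) (hy : y < 1) (m : ℕ) (h : 1 ≤ 2 ^ (m + 1) * (y - x)) :
    1 / 16 ^ (m + 1) ≤ ps y - ps x := by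
  have hxy : x ≤ y := by
    by_contra h'
    push Not at h'
    have : (2 : ℝ) ^ (m + 1) * (y - x) ≤ 0 :=
      mul_nonpos_of_nonneg_of_nonpos (by positivity) (by linarith)
    linarith
  have hs : Summable fun k => ct k y - ct k x :=
    (ct_summable (by linarith) hy).sub (ct_summable hx (by linarith))
  have h1 : ps y - ps x = ∑' k, (ct k y - ct k x) := by
    unfold ps
    rw [(ct_summable (by linarith) hy).tsum_sub (ct_summable hx (by linarith))]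
    ring
  rw [h1]
  have h2 : ct m y - ct m x ≤ ∑' k, (ct k y - ct k x) :=
    hs.le_tsum m (fun k _ => sub_nonneg.mpr (ct_mono k hxy))
  refine le_trans ?_ h2
  unfold ct
  rw [← sub_div]
  have h3 : ⌊2 ^ (m + 1) * x⌋ + 1 ≤ ⌊2 ^ (m + 1) * y⌋ := by
    rw [Int.le_floor]
    push_cast
    have := Int.floor_le (2 ^ (m + 1) * x)
    nlinarith
  have h4 : (1 : ℝ) ≤ (⌊2 ^ (m + 1) * y⌋ : ℝ) - (⌊2 ^ (m + 1) * x⌋ : ℝ) := by
    have : ((⌊2 ^ (m + 1) * x⌋ + 1 : ℤ) : ℝ) ≤ (⌊2 ^ (m + 1) * y⌋ : ℝ) := by exact_mod_cast h3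
    push_cast at this
    linarith
  gcongr

/-- The growth of the jump function. -/
theorem ps_growth {x y : ℝ} (hx : 0 ≤ x) (hxy : x < y) (hy : y < 1) :
    (y - x) ^ 4 / 16 ≤ ps y - ps x := by
  set d := y - x with hd
  have hd0 : 0 < d := by linarith
  have hd1 : d < 1 := by linarith
  -- the least `m` with `1 ≤ 2 ^ (m + 1) * d`
  have hex : ∃ m : ℕ, 1 ≤ 2 ^ (m + 1) * d := by
    obtain ⟨m, hm⟩ := pow_unbounded_of_one_lt (1 / d) (by norm_num : (1 : ℝ) < 2)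
    refine ⟨m, ?_⟩
    rw [div_lt_iff₀ hd0] at hm
    have : (2 : ℝ) ^ m * d ≤ 2 ^ (m + 1) * d := by
      gcongr
      · norm_num
      · omega
    linarith
  classical
  set m := Nat.find hex with hm
  have h1 : 1 ≤ 2 ^ (m + 1) * d := Nat.find_spec hex
  have h2 : (2 : ℝ) ^ m * d ≤ 1 := by
    rcases Nat.eq_zero_or_pos m with h0 | h0
    · rw [h0]; simp; exact hd1.le
    · have h3 := Nat.find_min hex (m := m - 1) (by omega)
      push Not at h3
      have : m - 1 + 1 = m := by omega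
      rw [this] at h3
      exact h3.le
  refine le_trans ?_ (ps_jump hx hy m h1)
  have h4 : d ≤ 1 / 2 ^ m := by
    rw [le_div_iff₀ (by positivity)]
    linarith
  have h5 : d ^ 4 ≤ (1 / 2 ^ m) ^ 4 := by gcongr
  have h6 : ((1 : ℝ) / 2 ^ m) ^ 4 = 1 / 16 ^ m := by
    rw [div_pow, one_pow, ← pow_mul, mul_comm, pow_mul]
    norm_num
  rw [h6] at h5
  calc d ^ 4 / 16 ≤ (1 / 16 ^ m) / 16 := by gcongr
    _ = 1 / 16 ^ (m + 1) := by rw [pow_succ]; field_simp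

/-- The value at the left end of a dyadic interval is close. -/
theorem ps_close {x : ℝ} (hx : 0 ≤ x) (hx1 : x < 1) (m : ℕ) :
    ps x ≤ ps ((⌊2 ^ m * x⌋ : ℝ) / 2 ^ m) + 1 / 16 ^ m / 7 := by
  set j : ℤ := ⌊2 ^ m * x⌋ with hj
  set y : ℝ := (j : ℝ) / 2 ^ m with hy
  have hj0 : (0 : ℤ) ≤ j := Int.floor_nonneg.mpr (by positivity)
  have hj0' : (0 : ℝ) ≤ (j : ℝ) := by exact_mod_cast hj0
  have hy0 : 0 ≤ y := by positivity
  have hyx : y ≤ x := by
    rw [hy, div_le_iff₀ (by positivity), mul_comm]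
    exact Int.floor_le _
  have hxy : x < y + 1 / 2 ^ m := by
    have h := Int.lt_floor_add_one (2 ^ m * x)
    rw [hy, ← add_div, lt_div_iff₀ (by positivity), mul_comm]
    exact h
  have hsx := ct_summable hx hx1
  have hsy := ct_summable hy0 (by linarith : y < 1)
  have hs : Summable fun k => ct k x - ct k y := hsx.sub hsy
  have h1 : ps x - ps y = ∑' k, (ct k x - ct k y) := by
    unfold ps
    rw [hsx.tsum_sub hsy]
    ring
  -- the first terms vanish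
  have hz : ∀ k < m, ct k x - ct k y = 0 := by
    intro k hk
    unfold ct
    have h2 : ⌊2 ^ (k + 1) * x⌋ = ⌊2 ^ (k + 1) * y⌋ := by
      apply le_antisymm _ (Int.floor_mono (by gcongr))
      rw [Int.le_floor]
      -- `2^(k+1) y = j / 2^(m-k-1)`
      set l := ⌊2 ^ (k + 1) * x⌋ with hl
      have h3 : (l : ℝ) ≤ 2 ^ (k + 1) * x := Int.floor_le _
      have h4 : (l * 2 ^ (m - (k + 1)) : ℝ) ≤ 2 ^ m * x := by
        have e : (2 : ℝ) ^ m = 2 ^ (k + 1) * 2 ^ (m - (k + 1)) := by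
          rw [← pow_add]; congr 1; omega
        rw [e]
        nlinarith [pow_pos (by norm_num : (0 : ℝ) < 2) (m - (k + 1))]
      have h5 : l * 2 ^ (m - (k + 1)) ≤ j := by
        rw [hj, Int.le_floor]
        push_cast
        exact h4
      have h6 : (l : ℝ) * 2 ^ (m - (k + 1)) ≤ j := by exact_mod_cast h5
      have e : (2 : ℝ) ^ m = 2 ^ (k + 1) * 2 ^ (m - (k + 1)) := by
        rw [← pow_add]; congr 1; omega
      have h7 : (2 : ℝ) ^ (k + 1) * y = j / 2 ^ (m - (k + 1)) := by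
        rw [hy, e]
        field_simp
      rw [h7, le_div_iff₀ (by positivity)]
      exact h6
    rw [h2, sub_self]
  have hle : ∀ k, ct (k + m) x - ct (k + m) y ≤ 1 / 16 ^ m * (1 / 8 * (1 / 8) ^ k) := by
    intro k
    unfold ct
    rw [← sub_div]
    have h2 : (2 : ℝ) ^ (k + m + 1) * y = ((j * 2 ^ (k + 1) : ℤ) : ℝ) := by
      push_cast
      rw [hy]
      have e : (2 : ℝ) ^ (k + m + 1) = 2 ^ m * 2 ^ (k + 1) := by
        rw [← pow_add]; congr 1; ring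
      rw [e]
      field_simp
    have h3 : (⌊2 ^ (k + m + 1) * y⌋ : ℝ) = 2 ^ (k + m + 1) * y := by
      rw [h2, Int.floor_intCast]
    have h4 : (⌊2 ^ (k + m + 1) * x⌋ : ℝ) ≤ 2 ^ (k + m + 1) * x := Int.floor_le _
    have h5 : (⌊2 ^ (k + m + 1) * x⌋ : ℝ) - (⌊2 ^ (k + m + 1) * y⌋ : ℝ) ≤ 2 ^ (k + 1) := by
      rw [h3]
      have e : (2 : ℝ) ^ (k + m + 1) = 2 ^ (k + 1) * 2 ^ m := by
        rw [← pow_add]; congr 1; ring
      calc (⌊2 ^ (k + m + 1) * x⌋ : ℝ) - 2 ^ (k + m + 1) * y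
          ≤ 2 ^ (k + m + 1) * (x - y) := by linarith
        _ ≤ 2 ^ (k + m + 1) * (1 / 2 ^ m) := by gcongr; linarith
        _ = 2 ^ (k + 1) := by rw [e]; field_simp
    rw [div_le_iff₀ (by positivity)]
    refine h5.trans (le_of_eq ?_)
    have e16 : (16 : ℝ) ^ (k + m + 1) = 16 ^ m * (8 ^ (k + 1) * 2 ^ (k + 1)) := by
      rw [← mul_pow]
      norm_num
      rw [← pow_add]; congr 1; ring
    rw [e16, one_div (8 : ℝ), inv_pow, pow_succ (8 : ℝ) k]
    field_simp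
  have h8 : ∑' k, (ct k x - ct k y) ≤ 1 / 16 ^ m / 7 := by
    rw [← hs.sum_add_tsum_nat_add m]
    have h9 : ∑ k ∈ Finset.range m, (ct k x - ct k y) = 0 :=
      Finset.sum_eq_zero fun k hk => hz k (Finset.mem_range.mp hk)
    rw [h9, zero_add]
    have h10 := (geo8.mul_left (1 / 16 ^ m : ℝ))
    have h11 := ((summable_nat_add_iff m).mpr hs).tsum_le_tsum hle h10.summable
    rw [h10.tsum_eq] at h11
    linarith
  linarith

/-- The Cantor set. -/
def FF : Set ℝ := closure (ps '' Ico 0 1)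

theorem FF_closed : IsClosed FF := isClosed_closure

theorem FF_sub : FF ⊆ Icc 1 (8 / 7) := by
  apply closure_minimal _ isClosed_Icc
  rintro _ ⟨x, hx, rfl⟩
  exact ⟨ps_ge hx.1, ps_le hx.1 hx.2⟩

theorem FF_compact : IsCompact FF := isCompact_Icc.of_isClosed_subset FF_closed FF_sub

theorem ps_mem {x : ℝ} (hx : 0 ≤ x) (hx1 : x < 1) : ps x ∈ FF :=
  subset_closure ⟨x, ⟨hx, hx1⟩, rfl⟩

/-- The covers of the Cantor set. -/
theorem FF_cover (m : ℕ) {w : ℝ} (hw : w ∈ FF) :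
    ∃ j : ℕ, j < 2 ^ m ∧ ps ((j : ℝ) / 2 ^ m) ≤ w ∧ w ≤ ps ((j : ℝ) / 2 ^ m) + 1 / 16 ^ m / 7 := by
  have h1 : FF ⊆ ⋃ j ∈ Finset.range (2 ^ m),
      Icc (ps ((j : ℝ) / 2 ^ m)) (ps ((j : ℝ) / 2 ^ m) + 1 / 16 ^ m / 7) := by
    apply closure_minimal
    · rintro _ ⟨x, hx, rfl⟩
      have hx0 : 0 ≤ x := hx.1
      have hx1 : x < 1 := hx.2
      have hf0 : (0 : ℤ) ≤ ⌊2 ^ m * x⌋ := Int.floor_nonneg.mpr (by positivity)
      obtain ⟨j, hj⟩ := Int.eq_ofNat_of_zero_le hf0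
      have hfl : (⌊2 ^ m * x⌋ : ℝ) = (j : ℝ) := by
        rw [hj]; simp
      have hjle : (j : ℝ) ≤ 2 ^ m * x := by rw [← hfl]; exact Int.floor_le _
      have hjlt : j < 2 ^ m := by
        have : (j : ℝ) < 2 ^ m := by
          have : (2 : ℝ) ^ m * x < 2 ^ m * 1 := by gcongr
          linarith
        exact_mod_cast this
      simp only [Set.mem_iUnion, Finset.mem_range]
      refine ⟨j, hjlt, ?_, ?_⟩
      · apply ps_mono (by positivity) _ hx1
        rw [div_le_iff₀ (by positivity), mul_comm]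
        exact hjle
      · have := ps_close hx0 hx1 m
        rw [hfl] at this
        exact this
    · exact isClosed_biUnion_finset fun j _ => isClosed_Icc
  have h2 := h1 hw
  simp only [Set.mem_iUnion, Finset.mem_range] at h2
  obtain ⟨j, hj, h3⟩ := h2
  exact ⟨j, hj, h3.1, h3.2⟩

theorem FF_gap (m : ℕ) {j : ℕ} (hj : j + 1 < 2 ^ (m + 1)) :
    ps ((j : ℝ) / 2 ^ (m + 1)) + 1 / 16 ^ (m + 1) ≤ ps (((j + 1 : ℕ) : ℝ) / 2 ^ (m + 1)) := by
  have h1 := ps_jump (x := (j : ℝ) / 2 ^ (m + 1)) (y := ((j + 1 : ℕ) : ℝ) / 2 ^ (m + 1))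
    (by positivity) (by
      rw [div_lt_one (by positivity)]
      exact_mod_cast hj) m (by
      push_cast
      rw [← sub_div]
      have : (2 : ℝ) ^ (m + 1) * ((↑j + 1 - ↑j) / 2 ^ (m + 1)) = 1 := by
        field_simp
        ring
      rw [this])
  linarith

end Pool.Agent.R860.HD
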