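import Mathlib

/-!
# Harnack's inequality
-/

set_option autoImplicit false

namespace Pool.Agent.R860.HD

open InnerProductSpace Metric Set Complex Topology

/-- Harnack's inequality, upper bound. -/
theorem harnack_upper {u : ℂ → ℝ} {c w : ℂ} {R : ℝ} (hR : 0 < R)
    (hu : HarmonicOnNhd u (closedBall c R)) (h0 : ∀ z ∈ closedBall c R, 0 ≤ u z)
    (hw : w ∈ ball c R) : u w ≤ (R + ‖w - c‖) / (R - ‖w - c‖) * u c := by
  have hcont : ContinuousOn u (closedBall c R) := hu.continuousOn
  have hsph : sphere c |R| ⊆ closedBall c R := by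
    rw [abs_of_pos hR]; exact sphere_subset_closedBall
  have hint : CircleIntegrable u c R := (hcont.mono hsph).circleIntegrable'
  have hkc : ContinuousOn (poissonKernel c w) (sphere c |R|) := by
    rw [poissonKernel_eq_re_herglotzRieszKernel]
    exact Complex.continuous_re.comp_continuousOn (continuousOn_herglotzRieszKernel_sphere hw)
  have hint2 : CircleIntegrable (poissonKernel c w • u) c R :=
    (hkc.smul (hcont.mono hsph)).circleIntegrable'
  have h1 := hu.circleAverage_poissonKernel_smul hw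
  have h2 : Real.circleAverage u c R = u c := by
    rw [InnerProductSpace.HarmonicOnNhd.circleAverage_eq]
    rw [abs_of_pos hR]; exact hu
  rw [← h1, ← h2, ← smul_eq_mul, ← Real.circleAverage_smul]
  apply Real.circleAverage_mono hint2 (hint.const_smul (a := (R + ‖w - c‖) / (R - ‖w - c‖)))
  intro z hz
  rw [abs_of_pos hR] at hz
  simp only [Pi.smul_apply', Pi.smul_apply, smul_eq_mul]
  apply mul_le_mul_of_nonneg_right _ (h0 z (sphere_subset_closedBall hz))
  have h3 := re_herglotzRieszKernel_le hz hw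
  rw [poissonKernel_eq_re_herglotzRieszKernel]
  exact h3

/-- Harnack's inequality, lower bound. -/
theorem harnack_lower {u : ℂ → ℝ} {c w : ℂ} {R : ℝ} (hR : 0 < R)
    (hu : HarmonicOnNhd u (closedBall c R)) (h0 : ∀ z ∈ closedBall c R, 0 ≤ u z)
    (hw : w ∈ ball c R) : (R - ‖w - c‖) / (R + ‖w - c‖) * u c ≤ u w := by
  have hcont : ContinuousOn u (closedBall c R) := hu.continuousOn
  have hsph : sphere c |R| ⊆ closedBall c R := by
    rw [abs_of_pos hR]; exact sphere_subset_closedBall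
  have hint : CircleIntegrable u c R := (hcont.mono hsph).circleIntegrable'
  have hkc : ContinuousOn (poissonKernel c w) (sphere c |R|) := by
    rw [poissonKernel_eq_re_herglotzRieszKernel]
    exact Complex.continuous_re.comp_continuousOn (continuousOn_herglotzRieszKernel_sphere hw)
  have hint2 : CircleIntegrable (poissonKernel c w • u) c R :=
    (hkc.smul (hcont.mono hsph)).circleIntegrable'
  have h1 := hu.circleAverage_poissonKernel_smul hw
  have h2 : Real.circleAverage u c R = u c := by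
    rw [InnerProductSpace.HarmonicOnNhd.circleAverage_eq]
    rw [abs_of_pos hR]; exact hu
  rw [← h1, ← h2, ← smul_eq_mul, ← Real.circleAverage_smul]
  apply Real.circleAverage_mono (hint.const_smul (a := (R - ‖w - c‖) / (R + ‖w - c‖))) hint2
  intro z hz
  rw [abs_of_pos hR] at hz
  simp only [Pi.smul_apply', Pi.smul_apply, smul_eq_mul]
  apply mul_le_mul_of_nonneg_right _ (h0 z (sphere_subset_closedBall hz))
  have h3 := le_re_herglotzRieszKernel hz hw
  rw [poissonKernel_eq_re_herglotzRieszKernel]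
  exact h3

/-- Near a point of an open set, the values of a nonnegative harmonic function are comparable. -/
theorem harnack_local {D : Set ℂ} (hD : IsOpen D) {x : ℂ} (hx : x ∈ D) :
    ∃ r > 0, ∀ y ∈ ball x r, ∀ u : ℂ → ℝ, HarmonicOnNhd u D → (∀ z ∈ D, 0 ≤ u z) →
      u y ≤ 3 * u x ∧ u x ≤ 3 * u y := by
  obtain ⟨ρ, hρ, hsub⟩ := Metric.isOpen_iff.mp hD x hx
  refine ⟨ρ / 4, by positivity, ?_⟩
  intro y hy u hu h0
  have hcl : closedBall x (ρ / 2) ⊆ D := (closedBall_subset_ball (by linarith)).trans hsub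
  have hu' : HarmonicOnNhd u (closedBall x (ρ / 2)) := hu.mono hcl
  have h0' : ∀ z ∈ closedBall x (ρ / 2), 0 ≤ u z := fun z hz => h0 z (hcl hz)
  have hyb : y ∈ ball x (ρ / 2) := ball_subset_ball (by linarith) hy
  have hd : ‖y - x‖ < ρ / 4 := by rwa [mem_ball, dist_eq_norm] at hy
  have hd0 := norm_nonneg (y - x)
  have h1 := harnack_upper (by positivity) hu' h0' hyb
  have h2 := harnack_lower (by positivity) hu' h0' hyb
  have hux := h0 x hx
  constructor
  · refine h1.trans ?_
    apply mul_le_mul_of_nonneg_right _ hux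
    rw [div_le_iff₀ (by linarith)]
    linarith
  · have h3 : 1 / 3 ≤ (ρ / 2 - ‖y - x‖) / (ρ / 2 + ‖y - x‖) := by
      rw [le_div_iff₀ (by linarith)]
      linarith
    nlinarith

/-- Harnack comparability of two points of a connected open set. -/
theorem harnack_two {D : Set ℂ} (hD : IsOpen D) (hc : IsPreconnected D) {x y : ℂ} (hx : x ∈ D)
    (hy : y ∈ D) : ∃ A > 0, ∀ u : ℂ → ℝ, HarmonicOnNhd u D → (∀ z ∈ D, 0 ≤ u z) →
      u y ≤ A * u x := by
  apply hc.induction₂' (fun x y => ∃ A > 0, ∀ u : ℂ → ℝ, HarmonicOnNhd u D →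
    (∀ z ∈ D, 0 ≤ u z) → u y ≤ A * u x) _ _ hx hy
  · intro z hz
    obtain ⟨r, hr, h⟩ := harnack_local hD hz
    have : ball z r ∈ 𝓝[D] z := mem_nhdsWithin_of_mem_nhds (ball_mem_nhds z hr)
    filter_upwards [this] with w hw
    exact ⟨⟨3, by norm_num, fun u hu h0 => (h w hw u hu h0).1⟩,
      ⟨3, by norm_num, fun u hu h0 => (h w hw u hu h0).2⟩⟩
  · rintro a b c ha hb hc' ⟨A, hA, h1⟩ ⟨B, hB, h2⟩
    refine ⟨B * A, by positivity, fun u hu h0 => ?_⟩
    calc u c ≤ B * u b := h2 u hu h0
      _ ≤ B * (A * u a) := by gcongr; exact h1 u hu h0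
      _ = B * A * u a := by ring

/-- Harnack comparability, uniform on a compact set. -/
theorem harnack_compact {D K : Set ℂ} (hD : IsOpen D) (hc : IsPreconnected D) {x : ℂ}
    (hx : x ∈ D) (hK : IsCompact K) (hKD : K ⊆ D) :
    ∃ A > 0, ∀ y ∈ K, ∀ u : ℂ → ℝ, HarmonicOnNhd u D → (∀ z ∈ D, 0 ≤ u z) →
      u y ≤ A * u x := by
  apply hK.induction_on (p := fun S => ∃ A > 0, ∀ y ∈ S, ∀ u : ℂ → ℝ, HarmonicOnNhd u D →
    (∀ z ∈ D, 0 ≤ u z) → u y ≤ A * u x)
  · exact ⟨1, one_pos, fun y hy => absurd hy (Set.notMem_empty y)⟩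
  · rintro s t hst ⟨A, hA, h⟩
    exact ⟨A, hA, fun y hy => h y (hst hy)⟩
  · rintro s t ⟨A, hA, h1⟩ ⟨B, hB, h2⟩
    refine ⟨A + B, by positivity, fun y hy u hu h0 => ?_⟩
    have hux := h0 x hx
    rcases hy with hy | hy
    · have := h1 y hy u hu h0
      nlinarith
    · have := h2 y hy u hu h0
      nlinarith
  · intro z hz
    obtain ⟨r, hr, h⟩ := harnack_local hD (hKD hz)
    obtain ⟨A, hA, h1⟩ := harnack_two hD hc hx (hKD hz)
    refine ⟨ball z r, mem_nhdsWithin_of_mem_nhds (ball_mem_nhds z hr), 3 * A, by positivity, ?_⟩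
    intro y hy u hu h0
    have h2 := (h y hy u hu h0).1
    have h3 := h1 u hu h0
    linarith

/-- Precomposition of a harmonic function with a holomorphic one. -/
theorem harmonic_comp {u : ℂ → ℝ} {g : ℂ → ℂ} {z : ℂ} (hu : HarmonicAt u (g z))
    (hg : AnalyticAt ℂ g z) : HarmonicAt (fun w => u (g w)) z := by
  obtain ⟨r, hr, hball⟩ := Metric.isOpen_iff.mp (isOpen_setOfPred_harmonicAt u) (g z) hu
  obtain ⟨F, hF, hFu⟩ := HarmonicOnNhd.exists_analyticOnNhd_ball_re_eq
    (fun w hw => hball hw : HarmonicOnNhd u (ball (g z) r))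
  have h1 : AnalyticAt ℂ (fun w => F (g w)) z := (hF (g z) (mem_ball_self hr)).comp hg
  have h2 := h1.harmonicAt_re
  apply (harmonicAt_congr_nhds _).mp h2
  have h3 : ∀ᶠ w in 𝓝 z, g w ∈ ball (g z) r := hg.continuousAt (ball_mem_nhds _ hr)
  filter_upwards [h3] with w hw
  exact hFu hw

end Pool.Agent.R860.HD
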