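import Pool.Agent.R860.HD.Cantor
import Pool.Agent.R860.HD.Harnack

/-!
# The domain
-/

set_option autoImplicit false

namespace Pool.Agent.R860.HD

open Set Filter Topology Complex InnerProductSpace Metric

/-- The exceptional set in the coordinate `z ^ N`. -/
def EE (N : ℕ) : Set ℂ := {t | ∃ k : ℕ, ∃ w ∈ FF, t = (((2 ^ k * w) ^ N : ℝ) : ℂ)}

/-- The domain. -/
def DD (N : ℕ) : Set ℂ := {z | z ^ N ∉ EE N}

theorem EE_closed {N : ℕ} (hN : 1 ≤ N) : IsClosed (EE N) := by
  have h1 : EE N = ⋃ k : ℕ, (fun w : ℝ => (((2 ^ k * w) ^ N : ℝ) : ℂ)) '' FF := by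
    ext t
    simp only [EE, Set.mem_ofPred_eq, Set.mem_iUnion, Set.mem_image]
    constructor
    · rintro ⟨k, w, hw, ht⟩; exact ⟨k, w, hw, ht.symm⟩
    · rintro ⟨k, w, hw, ht⟩; exact ⟨k, w, hw, ht.symm⟩
  rw [h1]
  apply LocallyFinite.isClosed_iUnion
  · intro t
    refine ⟨ball t 1, ball_mem_nhds t one_pos, ?_⟩
    obtain ⟨K, hK⟩ := pow_unbounded_of_one_lt (‖t‖ + 1) (by norm_num : (1 : ℝ) < 2)
    apply (Set.finite_lt_nat K).subset
    rintro k ⟨s, ⟨w, hw, hs⟩, hst⟩
    have hw1 := (FF_sub hw).1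
    simp only at hs
    have h2 : ‖s‖ < ‖t‖ + 1 := by
      rw [mem_ball, dist_eq_norm] at hst
      have : ‖s‖ ≤ ‖s - t‖ + ‖t‖ := by
        calc ‖s‖ = ‖(s - t) + t‖ := by congr 1; ring
          _ ≤ _ := norm_add_le _ _
      linarith
    have h3 : (2 : ℝ) ^ k ≤ ‖s‖ := by
      have h5 : (1 : ℝ) ≤ 2 ^ k := one_le_pow₀ (by norm_num)
      have h4 : (1 : ℝ) ≤ 2 ^ k * w := by nlinarith
      rw [← hs, Complex.norm_real, Real.norm_of_nonneg (by positivity)]
      calc (2 : ℝ) ^ k ≤ 2 ^ k * w := by nlinarith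
        _ = (2 ^ k * w) ^ 1 := (pow_one _).symm
        _ ≤ (2 ^ k * w) ^ N := by gcongr
    have h5 : (2 : ℝ) ^ k < 2 ^ K := by linarith
    exact (pow_lt_pow_iff_right₀ (by norm_num : (1 : ℝ) < 2)).mp h5
  · intro k
    apply IsCompact.isClosed
    apply FF_compact.image
    fun_prop

theorem DD_open {N : ℕ} (hN : 1 ≤ N) : IsOpen (DD N) := by
  have h : Continuous fun z : ℂ => z ^ N := by fun_prop
  exact (EE_closed hN).isOpen_compl.preimage h

theorem EE_real {N : ℕ} {t : ℂ} (ht : t ∈ EE N) : t.im = 0 ∧ 0 ≤ t.re := by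
  obtain ⟨k, w, hw, rfl⟩ := ht
  have hw1 := (FF_sub hw).1
  constructor
  · rw [Complex.ofReal_im]
  · rw [Complex.ofReal_re]; positivity

/-- The points off the rays. -/
def OR (N : ℕ) : Set ℂ := {z | (z ^ N).im ≠ 0 ∨ (z ^ N).re < 0}

theorem OR_sub (N : ℕ) : OR N ⊆ DD N := by
  intro z hz hE
  obtain ⟨h1, h2⟩ := EE_real hE
  rcases hz with h | h
  · exact h h1
  · linarith

theorem OR_open (N : ℕ) : IsOpen (OR N) := by
  have h : Continuous fun z : ℂ => z ^ N := by fun_prop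
  exact (isOpen_ne_fun (Complex.continuous_im.comp h) continuous_const).union
    (isOpen_lt (Complex.continuous_re.comp h) continuous_const)

theorem modulus {N : ℕ} (hN : 1 ≤ N) {z : ℂ} (hz : z ∉ DD N) :
    ∃ k : ℕ, ∃ w ∈ FF, ‖z‖ = 2 ^ k * w ∧ z ^ N = ((2 ^ k * w : ℝ) : ℂ) ^ N := by
  simp only [DD, Set.mem_ofPred_eq, not_not] at hz
  obtain ⟨k, w, hw, h⟩ := hz
  have hw1 := (FF_sub hw).1
  refine ⟨k, w, hw, ?_, ?_⟩
  · have h1 := congrArg (fun z : ℂ => ‖z‖) h
    simp only [norm_pow, Complex.norm_real] at h1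
    rw [Real.norm_of_nonneg (by positivity)] at h1
    exact (pow_left_inj₀ (norm_nonneg _) (by positivity) (by omega)).mp h1
  · rw [h]; push_cast; rfl

theorem annulus_sub {N : ℕ} (hN : 1 ≤ N) (k : ℕ) {z : ℂ} (h1 : 2 ^ k * (8 / 7) < ‖z‖)
    (h2 : ‖z‖ < 2 ^ (k + 1)) : z ∈ DD N := by
  by_contra hz
  obtain ⟨j, w, hw, h3, -⟩ := modulus hN hz
  obtain ⟨hw1, hw2⟩ := FF_sub hw
  rcases le_or_gt j k with h | h
  · have : (2 : ℝ) ^ j ≤ 2 ^ k := pow_le_pow_right₀ (by norm_num) h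
    have : (2 : ℝ) ^ j * w ≤ 2 ^ k * (8 / 7) := by gcongr
    linarith
  · have h5 : (2 : ℝ) ^ (k + 1) ≤ 2 ^ j := pow_le_pow_right₀ (by norm_num) h
    have : (2 : ℝ) ^ j * 1 ≤ 2 ^ j * w := by gcongr
    linarith

/-- Near every point there is a point off the rays. -/
theorem OR_dense {N : ℕ} (hN : 1 ≤ N) (z : ℂ) {r : ℝ} (hr : 0 < r) : ∃ y ∈ ball z r, y ∈ OR N := by
  by_contra hcon
  push Not at hcon
  have hNR : (0 : ℝ) < N := by exact_mod_cast hN
  rcases eq_or_ne z 0 with rfl | hz0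
  · -- at the origin
    set θ : ℝ := Real.pi / (2 * N) with hθ
    set y : ℂ := ((r / 2 : ℝ) : ℂ) * Complex.exp ((θ : ℂ) * I) with hy
    have hyn : ‖y‖ = r / 2 := by
      rw [hy, norm_mul, Complex.norm_exp_ofReal_mul_I, mul_one, Complex.norm_real,
        Real.norm_of_nonneg (by positivity)]
    apply hcon y (by rw [mem_ball, dist_zero_right, hyn]; linarith)
    left
    have h1 : y ^ N = (((r / 2) ^ N : ℝ) : ℂ) * I := by
      rw [hy, mul_pow, ← Complex.exp_nat_mul]
      have h2 : (N : ℂ) * ((θ : ℂ) * I) = ((Real.pi / 2 : ℝ) : ℂ) * I := by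
        rw [hθ]
        push_cast
        have : (N : ℂ) ≠ 0 := by exact_mod_cast hNR.ne'
        field_simp
      rw [h2, Complex.exp_mul_I, ← Complex.ofReal_cos, ← Complex.ofReal_sin, Real.cos_pi_div_two,
        Real.sin_pi_div_two]
      push_cast
      ring
    rw [h1, Complex.im_ofReal_mul, Complex.I_im, mul_one]
    positivity
  · have hz0' : 0 < ‖z‖ := norm_pos_iff.mpr hz0
    set θ : ℝ := min (r / (2 * ‖z‖)) (1 / N) with hθ
    have hθ0 : 0 < θ := lt_min (by positivity) (by positivity)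
    have hθr : θ ≤ r / (2 * ‖z‖) := min_le_left _ _
    have hθN : N * θ ≤ 1 := by
      have : θ ≤ 1 / N := min_le_right _ _
      rw [le_div_iff₀ hNR] at this
      linarith
    set y : ℂ := z * Complex.exp ((θ : ℂ) * I) with hy
    have hyz : y ∈ ball z r := by
      rw [mem_ball, dist_eq_norm, hy]
      have e : z * Complex.exp ((θ : ℂ) * I) - z = z * (Complex.exp ((θ : ℂ) * I) - 1) := by ring
      rw [e, norm_mul]
      have h1 : ‖Complex.exp ((θ : ℂ) * I) - 1‖ ≤ ‖θ‖ := by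
        rw [mul_comm]; exact Real.norm_exp_I_mul_ofReal_sub_one_le
      rw [Real.norm_of_nonneg hθ0.le] at h1
      calc ‖z‖ * ‖Complex.exp ((θ : ℂ) * I) - 1‖ ≤ ‖z‖ * (r / (2 * ‖z‖)) := by
            gcongr; exact h1.trans hθr
        _ = r / 2 := by field_simp
        _ < r := by linarith
    have hzb := hcon z (mem_ball_self hr)
    have hyb := hcon y hyz
    simp only [OR, Set.mem_ofPred_eq, not_or, not_not, not_lt] at hzb hyb
    -- both powers are nonnegative reals
    have h1 : y ^ N = z ^ N * Complex.exp (((N * θ : ℝ) : ℂ) * I) := by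
      rw [hy, mul_pow, ← Complex.exp_nat_mul]
      push_cast
      ring_nf
    have h2 : z ^ N = ((z ^ N).re : ℂ) := by
      apply Complex.ext
      · simp
      · rw [hzb.1]; simp
    have h3 : (y ^ N).im = (z ^ N).re * Real.sin (N * θ) := by
      rw [h1]
      conv_lhs => rw [h2]
      rw [Complex.im_ofReal_mul, Complex.exp_ofReal_mul_I_im]
    rw [hyb.1] at h3
    have hsin : 0 < Real.sin (N * θ) := by
      apply Real.sin_pos_of_pos_of_lt_pi (by positivity)
      have := Real.pi_gt_three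
      linarith
    have h4 : (z ^ N).re = 0 := by
      rcases mul_eq_zero.mp h3.symm with h | h
      · exact h
      · linarith
    have h5 : z ^ N = 0 := by rw [h2, h4]; simp
    exact hz0 (pow_eq_zero_iff (by omega) |>.mp h5)

/-- An open set containing the points off the rays and one circle is connected. -/
theorem conn {N : ℕ} (hN : 1 ≤ N) {U : Set ℂ} (hU : IsOpen U) (hOR : OR N ⊆ U)
    (hS : sphere (0 : ℂ) (3 / 2) ⊆ U) : IsPreconnected U := by
  have hx0 : (((3 / 2 : ℝ) : ℂ)) ∈ sphere (0 : ℂ) (3 / 2) := by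
    rw [mem_sphere, dist_zero_right, Complex.norm_real, Real.norm_of_nonneg (by norm_num)]
  have hSc : IsPreconnected (sphere (0 : ℂ) (3 / 2)) :=
    isPreconnected_sphere (by rw [Complex.rank_real_complex]; norm_num) _ _
  apply isPreconnected_of_forall (((3 / 2 : ℝ) : ℂ))
  intro z hz
  obtain ⟨r, hr, hball⟩ := Metric.isOpen_iff.mp hU z hz
  obtain ⟨y, hyb, hyO⟩ := OR_dense hN z hr
  have hy0 : y ≠ 0 := by
    rintro rfl
    rcases hyO with h | h
    · rw [zero_pow (by omega)] at h; simp at h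
    · rw [zero_pow (by omega)] at h; simp at h
  have hyn : 0 < ‖y‖ := norm_pos_iff.mpr hy0
  -- the ray through `y`
  set L : Set ℂ := (fun s : ℝ => (s : ℂ) * y) '' Ioi 0 with hL
  have hLc : IsPreconnected L := isPreconnected_Ioi.image _ (by fun_prop)
  have hLU : L ⊆ U := by
    rintro _ ⟨s, hs, rfl⟩
    apply hOR
    have hs' : (0 : ℝ) < s := hs
    have e : ((s : ℂ) * y) ^ N = ((s ^ N : ℝ) : ℂ) * y ^ N := by
      rw [mul_pow]; push_cast; rfl
    simp only [OR, Set.mem_ofPred_eq, e, Complex.im_ofReal_mul, Complex.re_ofReal_mul]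
    rcases hyO with h | h
    · left; exact mul_ne_zero (by positivity) h
    · right; exact mul_neg_of_pos_of_neg (by positivity) h
  have hyL : y ∈ L := ⟨1, by simp, by simp⟩
  have hLS : ((3 / 2 / ‖y‖ : ℝ) : ℂ) * y ∈ L := by
    refine ⟨3 / 2 / ‖y‖, ?_, rfl⟩
    have : 0 < 3 / 2 / ‖y‖ := by positivity
    exact this
  have hLS' : ((3 / 2 / ‖y‖ : ℝ) : ℂ) * y ∈ sphere (0 : ℂ) (3 / 2) := by
    rw [mem_sphere, dist_zero_right, norm_mul, Complex.norm_real,
      Real.norm_of_nonneg (by positivity)]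
    field_simp
  refine ⟨(ball z r ∪ L) ∪ sphere 0 (3 / 2), ?_, ?_, ?_, ?_⟩
  · exact union_subset (union_subset hball hLU) hS
  · right; exact hx0
  · left; left; exact mem_ball_self hr
  · exact ((convex_ball z r).isPreconnected.union y hyb hyL hLc).union
      _ (Or.inr hLS) hLS' hSc

theorem DD_conn {N : ℕ} (hN : 1 ≤ N) : IsPreconnected (DD N) := by
  apply conn hN (DD_open hN) (OR_sub N)
  intro z hz
  rw [mem_sphere, dist_zero_right] at hz
  apply annulus_sub hN 0 <;> rw [hz] <;> norm_num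

/-- The auxiliary domain for Harnack chains. -/
def DH (N : ℕ) : Set ℂ := OR N ∪ {z | 8 / 7 < ‖z‖ ∧ ‖z‖ < 2} ∪ {z | 16 / 7 < ‖z‖ ∧ ‖z‖ < 4}

theorem DH_open (N : ℕ) : IsOpen (DH N) := by
  apply ((OR_open N).union _).union
  · exact (isOpen_lt continuous_const continuous_norm).inter
      (isOpen_lt continuous_norm continuous_const)
  · exact (isOpen_lt continuous_const continuous_norm).inter
      (isOpen_lt continuous_norm continuous_const)

theorem DH_conn {N : ℕ} (hN : 1 ≤ N) : IsPreconnected (DH N) := by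
  apply conn hN (DH_open N)
  · exact fun z hz => Or.inl (Or.inl hz)
  · intro z hz
    rw [mem_sphere, dist_zero_right] at hz
    left; right
    constructor <;> rw [hz] <;> norm_num

theorem DH_scale {N : ℕ} (hN : 1 ≤ N) (k : ℕ) {z : ℂ} (hz : z ∈ DH N) : 2 ^ k * z ∈ DD N := by
  have hnk : ‖(2 : ℂ) ^ k * z‖ = 2 ^ k * ‖z‖ := by
    rw [norm_mul, norm_pow]; norm_num
  have h2k : (0 : ℝ) < 2 ^ k := by positivity
  rcases hz with (hz | hz) | hz
  · apply OR_sub
    have e : ((2 : ℂ) ^ k * z) ^ N = (((2 ^ k) ^ N : ℝ) : ℂ) * z ^ N := by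
      rw [mul_pow]; push_cast; rfl
    simp only [OR, Set.mem_ofPred_eq, e, Complex.im_ofReal_mul, Complex.re_ofReal_mul]
    rcases hz with h | h
    · left; exact mul_ne_zero (by positivity) h
    · right; exact mul_neg_of_pos_of_neg (by positivity) h
  · apply annulus_sub hN k
    · rw [hnk]; nlinarith [hz.1]
    · rw [hnk, pow_succ]; nlinarith [hz.2]
  · apply annulus_sub hN (k + 1)
    · rw [hnk, pow_succ]; nlinarith [hz.1]
    · rw [hnk, pow_succ, pow_succ]; nlinarith [hz.2]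

/-- The roots of unity which are not real are away from the real line. -/
theorem roots_gap {N : ℕ} (hN : 1 ≤ N) :
    ∃ η > 0, ∀ ω : ℂ, ω ^ N = 1 → ω.im ≠ 0 → η ≤ |ω.im| := by
  classical
  set S := ((Polynomial.nthRootsFinset N (1 : ℂ)).filter fun ω => ω.im ≠ 0).image
    fun ω => |ω.im| with hS
  rcases S.eq_empty_or_nonempty with h | h
  · refine ⟨1, one_pos, ?_⟩
    intro ω h1 h2
    exfalso
    have : |ω.im| ∈ S := by
      rw [hS, Finset.mem_image]
      exact ⟨ω, Finset.mem_filter.mpr ⟨(Polynomial.mem_nthRootsFinset (by omega) _).mpr h1, h2⟩,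
        rfl⟩
    rw [h] at this
    simp at this
  · refine ⟨S.min' h, ?_, ?_⟩
    · have h1 := S.min'_mem h
      obtain ⟨ω, hω, h2⟩ := Finset.mem_image.mp h1
      have h3 := (Finset.mem_filter.mp hω).2
      have h4 : 0 < |ω.im| := abs_pos.mpr h3
      rw [h2] at h4
      exact h4
    · intro ω h1 h2
      apply S.min'_le
      rw [hS, Finset.mem_image]
      exact ⟨ω, Finset.mem_filter.mpr ⟨(Polynomial.mem_nthRootsFinset (by omega) _).mpr h1, h2⟩,
        rfl⟩

/-- Local structure of the domain at an exceptional point. -/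
theorem local_struct {N : ℕ} (hN : 1 ≤ N) {z0 : ℂ} (hz0 : z0 ∉ DD N) :
    ∃ (l : ℂ) (w η : ℝ), l ≠ 0 ∧ w ∈ FF ∧ z0 = l * w ∧ 0 < η ∧ η ≤ 1 / 4 ∧
      (∀ ζ : ℂ, 3 / 4 < ζ.re → ζ.re < 3 / 2 → |ζ.im| < η → (ζ.im ≠ 0 ∨ ζ.re ∉ FF) →
        l * ζ ∈ DD N) ∧ ∀ w' ∈ FF, l * (w' : ℂ) ∉ DD N := by
  obtain ⟨k, w, hw, hzn, hzN⟩ := modulus hN hz0
  obtain ⟨hw1, hw2⟩ := FF_sub hw
  obtain ⟨η0, hη0, hroots⟩ := roots_gap hN
  have hw0 : (w : ℂ) ≠ 0 := by
    have : w ≠ 0 := by linarith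
    exact_mod_cast this
  have hz00 : z0 ≠ 0 := by
    rw [← norm_pos_iff, hzn]; positivity
  have hlN0 : (z0 / (w : ℂ)) ^ N = ((2 : ℂ) ^ k) ^ N := by
    rw [div_pow, hzN]
    push_cast
    rw [mul_pow, mul_div_assoc, div_self (pow_ne_zero _ hw0), mul_one]
  refine ⟨z0 / w, w, min η0 (1 / 4), div_ne_zero hz00 hw0, hw, ?_, by positivity,
    min_le_right _ _, ?_, ?_⟩
  · field_simp
  · intro ζ h1 h2 h3 h4
    by_contra hcon
    obtain ⟨j, w', hw', hn', hN'⟩ := modulus hN hcon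
    obtain ⟨hw1', hw2'⟩ := FF_sub hw'
    have hln : ‖z0 / (w : ℂ)‖ = 2 ^ k := by
      rw [norm_div, hzn, Complex.norm_real, Real.norm_of_nonneg (by linarith)]
      field_simp
    have hζ1 : 3 / 4 < ‖ζ‖ := by
      have := Complex.abs_re_le_norm ζ
      rw [abs_of_pos (by linarith)] at this
      linarith
    have hζ2 : ‖ζ‖ < 2 := by
      have h5 := Complex.norm_le_abs_re_add_abs_im ζ
      rw [abs_of_pos (by linarith : 0 < ζ.re)] at h5
      have h6 : min η0 (1 / 4) ≤ 1 / 4 := min_le_right _ _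
      linarith
    rw [norm_mul, hln] at hn'
    have h2k : (0 : ℝ) < 2 ^ k := by positivity
    have hjk : j = k := by
      rcases lt_trichotomy j k with h | h | h
      · exfalso
        have h5 : (2 : ℝ) ^ (j + 1) ≤ 2 ^ k := pow_le_pow_right₀ (by norm_num) h
        rw [pow_succ] at h5
        have h6 : (2 : ℝ) ^ j * w' ≤ 2 ^ j * (8 / 7) := by gcongr
        nlinarith
      · exact h
      · exfalso
        have h5 : (2 : ℝ) ^ (k + 1) ≤ 2 ^ j := pow_le_pow_right₀ (by norm_num) h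
        rw [pow_succ] at h5
        have h6 : (2 : ℝ) ^ j * 1 ≤ 2 ^ j * w' := by gcongr
        nlinarith
    subst hjk
    -- the quotient is a root of unity
    have hw0' : (w' : ℂ) ≠ 0 := by
      have : w' ≠ 0 := by linarith
      exact_mod_cast this
    have hlN : (z0 / (w : ℂ)) ^ N = ((2 : ℂ) ^ j) ^ N := by
      rw [div_pow, hzN]
      push_cast
      rw [mul_pow, mul_div_assoc, div_self (pow_ne_zero _ hw0), mul_one]
    have hζN : (ζ / w') ^ N = 1 := by
      rw [mul_pow, hlN] at hN'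
      push_cast at hN'
      rw [mul_pow] at hN'
      have h5 : ((2 : ℂ) ^ j) ^ N ≠ 0 := pow_ne_zero _ (pow_ne_zero _ two_ne_zero)
      have h6 := mul_left_cancel₀ h5 hN'
      rw [div_pow, h6, div_self (pow_ne_zero _ hw0')]
    have him : (ζ / (w' : ℂ)).im = ζ.im / w' := by
      rw [Complex.div_ofReal_im]
    have hre : (ζ / (w' : ℂ)).re = ζ.re / w' := by
      rw [Complex.div_ofReal_re]
    by_cases h5 : ζ.im = 0
    · have h6 : ζ.re ∉ FF := by
        rcases h4 with h4 | h4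
        · exact absurd h5 h4
        · exact h4
      apply h6
      have h7 : ‖ζ‖ = ζ.re := by
        have e : ζ = (ζ.re : ℂ) := by
          apply Complex.ext
          · simp
          · rw [h5]; simp
        rw [e, Complex.norm_real, Real.norm_of_nonneg]
        · simp
        · linarith
      have h8 : ζ.re = w' := by
        rw [h7] at hn'
        exact mul_left_cancel₀ h2k.ne' hn'
      rw [h8]; exact hw'
    · have h6 := hroots (ζ / w') hζN (by rw [him]; exact div_ne_zero h5 (by linarith))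
      rw [him, abs_div, abs_of_pos (by linarith : 0 < w')] at h6
      have h7 : |ζ.im| / w' ≤ |ζ.im| := div_le_self (abs_nonneg _) hw1'
      have h8 : min η0 (1 / 4) ≤ η0 := min_le_left _ _
      linarith
  · intro w' hw' hcon
    apply hcon
    refine ⟨k, w', hw', ?_⟩
    rw [mul_pow, hlN0]
    push_cast
    rw [mul_pow]

/-- The growth of nonnegative harmonic functions. -/
theorem growth {N : ℕ} (hN : 1 ≤ N) :
    ∃ A B : ℝ, 0 < A ∧ 0 < B ∧ ∀ u : ℂ → ℝ, HarmonicOnNhd u (DD N) → (∀ z ∈ DD N, 0 ≤ u z) →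
      ∀ k : ℕ, ∀ y ∈ sphere (0 : ℂ) (3 / 2), u (2 ^ k * y) ≤ B * A ^ k * u ((3 / 2 : ℝ) : ℂ) := by
  set x0 : ℂ := ((3 / 2 : ℝ) : ℂ) with hx0
  have hx0n : ‖x0‖ = 3 / 2 := by
    rw [hx0, Complex.norm_real, Real.norm_of_nonneg (by norm_num)]
  have hx0D : x0 ∈ DH N := by
    left; right
    constructor <;> rw [hx0n] <;> norm_num
  have hx1D : 2 * x0 ∈ DH N := by
    right
    have : ‖2 * x0‖ = 3 := by rw [norm_mul, hx0n]; norm_num
    constructor <;> rw [this] <;> norm_num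
  obtain ⟨A, hA, h1⟩ := harnack_two (DH_open N) (DH_conn hN) hx0D hx1D
  obtain ⟨B, hB, h2⟩ := harnack_compact (DH_open N) (DH_conn hN) hx0D
    (isCompact_sphere (0 : ℂ) (3 / 2)) (by
      intro z hz
      rw [mem_sphere, dist_zero_right] at hz
      left; right
      constructor <;> rw [hz] <;> norm_num)
  refine ⟨A, B, hA, hB, ?_⟩
  intro u hu hu0 k y hy
  have hharm : ∀ k : ℕ, HarmonicOnNhd (fun z => u (2 ^ k * z)) (DH N) := by
    intro k z hz
    exact harmonic_comp (g := fun z => 2 ^ k * z) (hu _ (DH_scale hN k hz)) (by fun_prop)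
  have hnn : ∀ k : ℕ, ∀ z ∈ DH N, 0 ≤ u (2 ^ k * z) := fun k z hz => hu0 _ (DH_scale hN k hz)
  have h3 : ∀ k : ℕ, u (2 ^ k * x0) ≤ A ^ k * u x0 := by
    intro k
    induction k with
    | zero => simp
    | succ k ih =>
      have h4 := h1 _ (hharm k) (hnn k)
      have e : (2 : ℂ) ^ k * (2 * x0) = 2 ^ (k + 1) * x0 := by ring
      simp only [e] at h4
      calc u (2 ^ (k + 1) * x0) ≤ A * u (2 ^ k * x0) := h4
        _ ≤ A * (A ^ k * u x0) := by gcongr
        _ = A ^ (k + 1) * u x0 := by ring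
  have h5 := h2 y hy _ (hharm k) (hnn k)
  calc u (2 ^ k * y) ≤ B * u (2 ^ k * x0) := h5
    _ ≤ B * (A ^ k * u x0) := by gcongr; exact h3 k
    _ = B * A ^ k * u x0 := by ring

end Pool.Agent.R860.HD
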