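import Pool.Agent.R860.HD.Strip
import Pool.Agent.R860.HD.Harnack

/-!
# The Cantor set is removable
-/

set_option autoImplicit false

namespace Pool.Agent.R860.HD

open Set Filter Topology Complex MeasureTheory InnerProductSpace Metric

/-- A function dominated by a harmonic function off the real line grows at most like an inverse
square root. -/
theorem sing_bound {v : ℂ → ℝ} {h : ℂ → ℂ} {η : ℝ} (hη : 0 < η) (hη4 : η ≤ 1 / 4)
    (hv : ∀ ζ : ℂ, 3 / 4 < ζ.re → ζ.re < 3 / 2 → |ζ.im| < η → ζ.im ≠ 0 → HarmonicAt v ζ)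
    (hle : ∀ ζ : ℂ, 3 / 4 < ζ.re → ζ.re < 3 / 2 → |ζ.im| < η → ζ.im ≠ 0 → ‖h ζ‖ ^ 2 ≤ v ζ) :
    ∃ C : ℝ, 0 ≤ C ∧ ∀ x ∈ Icc (7 / 8 : ℝ) (5 / 4), ∀ y : ℝ, y ≠ 0 → |y| ≤ η / 2 →
      ‖h (x + y * I)‖ ≤ C / √|y| := by
  set ρ := η / 2 with hρ
  have hρ0 : 0 < ρ := by positivity
  -- the maximum on two segments
  have hM : ∀ s : ℝ, (s = 1 ∨ s = -1) → ∃ M : ℝ, ∀ x ∈ Icc (7 / 8 : ℝ) (5 / 4),
      v (x + (s * ρ : ℝ) * I) ≤ M := by
    intro s hs
    have hsρ : |s * ρ| = ρ := by
      rcases hs with rfl | rfl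
      · rw [one_mul, abs_of_pos hρ0]
      · rw [neg_one_mul, abs_neg, abs_of_pos hρ0]
    have hsρ0 : s * ρ ≠ 0 := by
      intro h0; rw [h0, abs_zero] at hsρ; linarith
    have hcont : ContinuousOn (fun x : ℝ => v (x + (s * ρ : ℝ) * I)) (Icc (7 / 8 : ℝ) (5 / 4)) := by
      intro x hx
      have h1 : HarmonicAt v (x + (s * ρ : ℝ) * I) := by
        apply hv
        · simp; linarith [hx.1]
        · simp; linarith [hx.2]
        · have : ((x : ℂ) + (s * ρ : ℝ) * I).im = s * ρ := by simp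
          rw [this, hsρ]; linarith
        · have : ((x : ℂ) + (s * ρ : ℝ) * I).im = s * ρ := by simp
          rw [this]; exact hsρ0
      have h2 : ContinuousAt (fun x : ℝ => ((x : ℂ) + (s * ρ : ℝ) * I)) x := by fun_prop
      exact (ContinuousAt.comp (f := fun x : ℝ => ((x : ℂ) + (s * ρ : ℝ) * I)) (g := v)
        h1.1.continuousAt h2).continuousWithinAt
    obtain ⟨M, hM⟩ := (isCompact_Icc.image_of_continuousOn hcont).bddAbove
    exact ⟨M, fun x hx => hM ⟨x, hx, rfl⟩⟩
  obtain ⟨M1, hM1⟩ := hM 1 (Or.inl rfl)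
  obtain ⟨M2, hM2⟩ := hM (-1) (Or.inr rfl)
  set M := max (max M1 M2) 0 with hMdef
  have hM0 : 0 ≤ M := le_max_right _ _
  have hMs : ∀ s : ℝ, (s = 1 ∨ s = -1) → ∀ x ∈ Icc (7 / 8 : ℝ) (5 / 4),
      v (x + (s * ρ : ℝ) * I) ≤ M := by
    intro s hs x hx
    rcases hs with rfl | rfl
    · exact (hM1 x hx).trans ((le_max_left _ _).trans (le_max_left _ _))
    · exact (hM2 x hx).trans ((le_max_right _ _).trans (le_max_left _ _))
  refine ⟨√(4 * ρ * M), Real.sqrt_nonneg _, ?_⟩
  intro x hx y hy0 hy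
  -- the sign
  obtain ⟨s, hs, hsy⟩ : ∃ s : ℝ, (s = 1 ∨ s = -1) ∧ y = s * |y| := by
    rcases lt_or_gt_of_ne hy0 with h1 | h1
    · exact ⟨-1, Or.inr rfl, by rw [abs_of_neg h1]; ring⟩
    · exact ⟨1, Or.inl rfl, by rw [abs_of_pos h1]; ring⟩
  set Y := |y| with hY
  have hY0 : 0 < Y := abs_pos.mpr hy0
  have hs2 : s * s = 1 := by rcases hs with rfl | rfl <;> norm_num
  have hsabs : |s| = 1 := by rcases hs with rfl | rfl <;> simp
  set c : ℂ := x + (s * ρ : ℝ) * I with hc
  set w : ℂ := x + y * I with hw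
  set R := ρ - Y / 2 with hR
  have hRpos : 0 < R := by linarith
  have hin : ∀ ζ ∈ closedBall c R, 3 / 4 < ζ.re ∧ ζ.re < 3 / 2 ∧ |ζ.im| < η ∧ ζ.im ≠ 0 := by
    intro ζ hζ
    rw [mem_closedBall, dist_eq_norm] at hζ
    have h1 : |(ζ - c).re| ≤ R := (Complex.abs_re_le_norm _).trans hζ
    have h2 : |(ζ - c).im| ≤ R := (Complex.abs_im_le_norm _).trans hζ
    have e1 : (ζ - c).re = ζ.re - x := by simp [hc]
    have e2 : (ζ - c).im = ζ.im - s * ρ := by simp [hc]
    rw [e1, abs_le] at h1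
    rw [e2, abs_le] at h2
    refine ⟨by linarith [h1.1, hx.1], by linarith [h1.2, hx.2], ?_, ?_⟩
    · rw [abs_lt]
      rcases hs with rfl | rfl
      · constructor <;> linarith [h2.1, h2.2]
      · constructor <;> linarith [h2.1, h2.2]
    · rcases hs with rfl | rfl
      · linarith [h2.1, h2.2]
      · intro h0; rw [h0] at h2; linarith [h2.1, h2.2]
  have hharm : HarmonicOnNhd v (closedBall c R) := by
    intro ζ hζ
    obtain ⟨a1, a2, a3, a4⟩ := hin ζ hζ
    exact hv ζ a1 a2 a3 a4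
  have hnn : ∀ ζ ∈ closedBall c R, 0 ≤ v ζ := by
    intro ζ hζ
    obtain ⟨a1, a2, a3, a4⟩ := hin ζ hζ
    exact (sq_nonneg _).trans (hle ζ a1 a2 a3 a4)
  have hwc : ‖w - c‖ = ρ - Y := by
    have e : w - c = ((s * (Y - ρ) : ℝ) : ℂ) * I := by
      rw [hw, hc, hsy]
      push_cast
      ring
    rw [e, norm_mul, Complex.norm_I, mul_one, Complex.norm_real, Real.norm_eq_abs, abs_mul,
      hsabs, one_mul, abs_of_nonpos (by linarith)]
    ring
  have hwb : w ∈ ball c R := by
    rw [mem_ball, dist_eq_norm, hwc]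
    linarith
  have h3 := harnack_upper hRpos hharm hnn hwb
  rw [hwc] at h3
  have hvc : v c ≤ M := hMs s hs x hx
  have hvc0 : 0 ≤ v c := hnn c (mem_closedBall_self hRpos.le)
  have h4 : v w ≤ 4 * ρ * M / Y := by
    refine h3.trans ?_
    have e1 : R - (ρ - Y) = Y / 2 := by rw [hR]; ring
    have e2 : R + (ρ - Y) ≤ 2 * ρ := by rw [hR]; linarith
    rw [e1]
    calc (R + (ρ - Y)) / (Y / 2) * v c ≤ (2 * ρ) / (Y / 2) * M := by
          gcongr
      _ = 4 * ρ * M / Y := by field_simp; ring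
  obtain ⟨a1, a2, a3, a4⟩ := hin w (ball_subset_closedBall hwb)
  have h5 : ‖h w‖ ^ 2 ≤ 4 * ρ * M / Y := (hle w a1 a2 a3 a4).trans h4
  rw [← Real.sqrt_div (by positivity)]
  exact Real.le_sqrt_of_sq_le h5

/-- Continuity on the boundary of a rectangle. -/
def BC (φ : ℂ → ℂ) (s t p q : ℝ) : Prop :=
  (∀ x ∈ Icc s t, ContinuousAt φ (x + p * I)) ∧ (∀ x ∈ Icc s t, ContinuousAt φ (x + q * I)) ∧
    (∀ y ∈ Icc p q, ContinuousAt φ (s + y * I)) ∧ (∀ y ∈ Icc p q, ContinuousAt φ (t + y * I))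

theorem cat_h {φ : ℂ → ℂ} {x y : ℝ} (h : ContinuousAt φ (x + y * I)) :
    ContinuousAt (fun x : ℝ => φ (x + y * I)) x :=
  ContinuousAt.comp (f := fun x : ℝ => ((x : ℂ) + y * I)) (g := φ) h (by fun_prop)

theorem cat_v {φ : ℂ → ℂ} {x y : ℝ} (h : ContinuousAt φ (x + y * I)) :
    ContinuousAt (fun y : ℝ => φ (x + y * I)) y :=
  ContinuousAt.comp (f := fun y : ℝ => ((x : ℂ) + y * I)) (g := φ) h (by fun_prop)

theorem int_of_cont {f : ℝ → ℂ} {s t : ℝ} (hst : s ≤ t) (h : ∀ x ∈ Icc s t, ContinuousAt f x) :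
    IntervalIntegrable f volume s t := by
  apply ContinuousOn.intervalIntegrable
  rw [uIcc_of_le hst]
  exact fun x hx => (h x hx).continuousWithinAt

theorem RI_lin {φ ψ : ℂ → ℂ} {s t p q : ℝ} (hst : s ≤ t) (hpq : p ≤ q) (a : ℂ)
    (h1 : BC φ s t p q) (h2 : BC ψ s t p q) :
    RI (fun ζ => φ ζ - a * ψ ζ) s t p q = RI φ s t p q - a * RI ψ s t p q := by
  unfold RI
  obtain ⟨a1, a2, a3, a4⟩ := h1
  obtain ⟨b1, b2, b3, b4⟩ := h2
  rw [intervalIntegral.integral_sub (int_of_cont hst fun x hx => cat_h (a1 x hx))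
      ((int_of_cont hst fun x hx => cat_h (b1 x hx)).const_mul a),
    intervalIntegral.integral_sub (int_of_cont hst fun x hx => cat_h (a2 x hx))
      ((int_of_cont hst fun x hx => cat_h (b2 x hx)).const_mul a),
    intervalIntegral.integral_sub (int_of_cont hpq fun x hx => cat_v (a4 x hx))
      ((int_of_cont hpq fun x hx => cat_v (b4 x hx)).const_mul a),
    intervalIntegral.integral_sub (int_of_cont hpq fun x hx => cat_v (a3 x hx))
      ((int_of_cont hpq fun x hx => cat_v (b3 x hx)).const_mul a)]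
  simp only [intervalIntegral.integral_const_mul]
  ring

theorem RI_congr {φ ψ : ℂ → ℂ} {s t p q : ℝ} (hst : s ≤ t) (hpq : p ≤ q)
    (h1 : ∀ x ∈ Icc s t, φ (x + p * I) = ψ (x + p * I))
    (h2 : ∀ x ∈ Icc s t, φ (x + q * I) = ψ (x + q * I))
    (h3 : ∀ y ∈ Icc p q, φ (s + y * I) = ψ (s + y * I))
    (h4 : ∀ y ∈ Icc p q, φ (t + y * I) = ψ (t + y * I)) :
    RI φ s t p q = RI ψ s t p q := by
  have e1 : ∫ x in s..t, φ (x + p * I) = ∫ x in s..t, ψ (x + p * I) :=
    intervalIntegral.integral_congr (by rw [uIcc_of_le hst]; exact h1)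
  have e2 : ∫ x in s..t, φ (x + q * I) = ∫ x in s..t, ψ (x + q * I) :=
    intervalIntegral.integral_congr (by rw [uIcc_of_le hst]; exact h2)
  have e3 : ∫ y in p..q, φ (s + y * I) = ∫ y in p..q, ψ (s + y * I) :=
    intervalIntegral.integral_congr (by rw [uIcc_of_le hpq]; exact h3)
  have e4 : ∫ y in p..q, φ (t + y * I) = ∫ y in p..q, ψ (t + y * I) :=
    intervalIntegral.integral_congr (by rw [uIcc_of_le hpq]; exact h4)
  unfold RI
  rw [e1, e2, e3, e4]

/-- Differentiability of a Cauchy integral over a segment. -/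
theorem cauchy_diff {f : ℝ → ℂ} {γ : ℝ → ℂ} {s t : ℝ} (hst : s ≤ t)
    (hf : ∀ x ∈ Icc s t, ContinuousAt f x) (hγ : Continuous γ) (z0 : ℂ)
    (hz : ∀ x ∈ Icc s t, γ x ≠ z0) :
    DifferentiableAt ℂ (fun z => ∫ x in s..t, f x / (γ x - z)) z0 := by
  -- distance to the segment
  obtain ⟨d, hd0, hd⟩ : ∃ d > 0, ∀ x ∈ Icc s t, d ≤ ‖γ x - z0‖ := by
    obtain ⟨x1, hx1, hmin⟩ := isCompact_Icc.exists_isMinOn (nonempty_Icc.mpr hst)
      ((hγ.sub continuous_const).norm.continuousOn (s := Icc s t) (f := fun x => ‖γ x - z0‖))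
    refine ⟨‖γ x1 - z0‖, norm_pos_iff.mpr (sub_ne_zero.mpr (hz x1 hx1)), ?_⟩
    intro x hx
    exact hmin hx
  obtain ⟨B, hB⟩ : ∃ B, ∀ x ∈ Icc s t, ‖f x‖ ≤ B := by
    have hc : ContinuousOn f (Icc s t) := fun x hx => (hf x hx).continuousWithinAt
    obtain ⟨B, hB⟩ := (isCompact_Icc.image_of_continuousOn hc.norm).bddAbove
    exact ⟨B, fun x hx => hB ⟨x, hx, rfl⟩⟩
  have hball : ∀ z ∈ ball z0 (d / 2), ∀ x ∈ Icc s t, d / 2 ≤ ‖γ x - z‖ := by
    intro z hzb x hx
    rw [mem_ball, dist_eq_norm] at hzb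
    have h1 := hd x hx
    have h2 : ‖γ x - z0‖ ≤ ‖γ x - z‖ + ‖z - z0‖ := by
      calc ‖γ x - z0‖ = ‖(γ x - z) + (z - z0)‖ := by congr 1; ring
        _ ≤ _ := norm_add_le _ _
    linarith
  have hne : ∀ z ∈ ball z0 (d / 2), ∀ x ∈ Icc s t, γ x - z ≠ 0 := by
    intro z hzb x hx h0
    have := hball z hzb x hx
    rw [h0, norm_zero] at this
    linarith
  have hioc : ∀ x, x ∈ uIoc s t → x ∈ Icc s t := by
    intro x hx
    rw [uIoc_of_le hst] at hx
    exact ⟨hx.1.le, hx.2⟩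
  have hmeas : ∀ z ∈ ball z0 (d / 2), ∀ n : ℕ, ContinuousOn (fun x => f x / (γ x - z) ^ n)
      (Icc s t) := by
    intro z hzb n x hx
    have h1 : ContinuousAt (fun x => (γ x - z) ^ n) x := by fun_prop
    exact ((hf x hx).div h1 (pow_ne_zero _ (hne z hzb x hx))).continuousWithinAt
  have hz0b : z0 ∈ ball z0 (d / 2) := mem_ball_self (by positivity)
  have hms : ∀ z ∈ ball z0 (d / 2), ∀ n : ℕ, AEStronglyMeasurable (fun x => f x / (γ x - z) ^ n)
      (volume.restrict (uIoc s t)) := by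
    intro z hzb n
    exact ((hmeas z hzb n).mono (fun x hx => hioc x hx)).aestronglyMeasurable
      measurableSet_uIoc
  have key := intervalIntegral.hasDerivAt_integral_of_dominated_loc_of_deriv_le (μ := volume)
    (a := s) (b := t) (F := fun z x => f x / (γ x - z)) (F' := fun z x => f x / (γ x - z) ^ 2)
    (x₀ := z0) (s := ball z0 (d / 2)) (bound := fun _ => B / (d / 2) ^ 2)
    (ball_mem_nhds _ (by positivity)) (by
      filter_upwards [ball_mem_nhds z0 (by positivity : 0 < d / 2)] with z hzb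
      have := hms z hzb 1
      simpa using this) (by
      apply ContinuousOn.intervalIntegrable
      rw [uIcc_of_le hst]
      have := hmeas z0 hz0b 1
      simpa using this) (hms z0 hz0b 2) (by
      apply Filter.Eventually.of_forall
      intro x hx z hzb
      have hx' := hioc x hx
      rw [norm_div, norm_pow]
      have h1 := hball z hzb x hx'
      have h2 := hB x hx'
      have h3 : 0 ≤ B := (norm_nonneg _).trans h2
      gcongr) (by
      exact intervalIntegrable_const) (by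
      apply Filter.Eventually.of_forall
      intro x hx z hzb
      have hx' := hioc x hx
      have h0 := hne z hzb x hx'
      have h1 : HasDerivAt (fun z => γ x - z) (-1) z := by
        simpa using (hasDerivAt_id z).const_sub (γ x)
      have h2 := (hasDerivAt_const z (f x)).div h1 h0
      exact HasDerivAt.congr_deriv h2 (by ring))
  exact key.2.differentiableAt

theorem RI_diff {φ : ℂ → ℂ} {s t p q : ℝ} (hst : s ≤ t) (hpq : p ≤ q) (h : BC φ s t p q) {z0 : ℂ}
    (h1 : s < z0.re) (h2 : z0.re < t) (h3 : p < z0.im) (h4 : z0.im < q) :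
    DifferentiableAt ℂ (fun z => RI (fun ζ => φ ζ / (ζ - z)) s t p q) z0 := by
  unfold RI
  obtain ⟨a1, a2, a3, a4⟩ := h
  have him : ∀ x y : ℝ, ((x : ℂ) + y * I).im = y := by intro x y; simp
  have hre : ∀ x y : ℝ, ((x : ℂ) + y * I).re = x := by intro x y; simp
  have d1 := cauchy_diff (γ := fun x : ℝ => (x : ℂ) + p * I) hst
    (fun x hx => cat_h (a1 x hx)) (by fun_prop) z0
    (by intro x hx h0; have := congrArg Complex.im h0; rw [him] at this; linarith)
  have d2 := cauchy_diff (γ := fun x : ℝ => (x : ℂ) + q * I) hst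
    (fun x hx => cat_h (a2 x hx)) (by fun_prop) z0
    (by intro x hx h0; have := congrArg Complex.im h0; rw [him] at this; linarith)
  have d3 := cauchy_diff (γ := fun y : ℝ => (t : ℂ) + y * I) hpq
    (fun x hx => cat_v (a4 x hx)) (by fun_prop) z0
    (by intro x hx h0; have := congrArg Complex.re h0; rw [hre] at this; linarith)
  have d4 := cauchy_diff (γ := fun y : ℝ => (s : ℂ) + y * I) hpq
    (fun x hx => cat_v (a3 x hx)) (by fun_prop) z0
    (by intro x hx h0; have := congrArg Complex.re h0; rw [hre] at this; linarith)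
  exact ((d1.sub d2).add (d3.const_mul I)).sub (d4.const_mul I)

theorem im_int_pos {f : ℝ → ℂ} {s t : ℝ} (hst : s < t) (κ : ℂ)
    (hf : ∀ x ∈ Icc s t, ContinuousAt f x) (hp : ∀ x ∈ Icc s t, 0 < (κ * f x).im) :
    0 < (κ * ∫ x in s..t, f x).im := by
  rw [← intervalIntegral.integral_const_mul]
  have hi : IntervalIntegrable (fun x => κ * f x) volume s t :=
    (int_of_cont hst.le hf).const_mul κ
  have h1 := Complex.imCLM.intervalIntegral_comp_comm hi
  have h2 : (∫ x in s..t, κ * f x).im = ∫ x in s..t, (κ * f x).im := h1.symm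
  rw [h2]
  apply intervalIntegral.intervalIntegral_pos_of_pos_on _ _ hst
  · apply ContinuousOn.intervalIntegrable
    rw [uIcc_of_le hst.le]
    intro x hx
    exact (Complex.continuous_im.continuousAt.comp
      (continuousAt_const.mul (hf x hx))).continuousWithinAt
  · intro x hx
    exact hp x ⟨hx.1.le, hx.2.le⟩

theorem RI_kernel {s t p q : ℝ} (hst : s < t) (hpq : p < q) {z : ℂ}
    (h1 : s < z.re) (h2 : z.re < t) (h3 : p < z.im) (h4 : z.im < q) :
    0 < (RI (fun ζ => 1 / (ζ - z)) s t p q).im := by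
  have him : ∀ x y : ℝ, ((x : ℂ) + y * I).im = y := by intro x y; simp
  have hre : ∀ x y : ℝ, ((x : ℂ) + y * I).re = x := by intro x y; simp
  have hne : ∀ x y : ℝ, (x ≠ z.re ∨ y ≠ z.im) → (x : ℂ) + y * I - z ≠ 0 := by
    intro x y h h0
    have e := sub_eq_zero.mp h0
    rcases h with h | h
    · apply h; have := congrArg Complex.re e; rw [hre] at this; exact this
    · apply h; have := congrArg Complex.im e; rw [him] at this; exact this
  have hca : ∀ x y : ℝ, (x ≠ z.re ∨ y ≠ z.im) →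
      ContinuousAt (fun ζ : ℂ => 1 / (ζ - z)) (x + y * I) := by
    intro x y h
    have := hne x y h
    fun_prop (disch := assumption)
  have hinv : ∀ (κ : ℂ) (x y : ℝ), (x ≠ z.re ∨ y ≠ z.im) →
      (κ * (1 / ((x : ℂ) + y * I - z))).im =
        (κ * (starRingEnd ℂ) ((x : ℂ) + y * I - z)).im / Complex.normSq ((x : ℂ) + y * I - z) := by
    intro κ x y h
    rw [one_div, Complex.inv_def, ← mul_assoc, Complex.im_mul_ofReal, div_eq_mul_inv]
  have hns : ∀ x y : ℝ, (x ≠ z.re ∨ y ≠ z.im) → 0 < Complex.normSq ((x : ℂ) + y * I - z) :=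
    fun x y h => Complex.normSq_pos.mpr (hne x y h)
  have p1 := im_int_pos hst 1 (f := fun x : ℝ => (fun ζ : ℂ => 1 / (ζ - z)) (x + p * I))
    (fun x hx => cat_h (hca x p (Or.inr (by linarith)))) (by
      intro x hx
      simp only
      rw [hinv 1 x p (Or.inr (by linarith))]
      apply div_pos _ (hns x p (Or.inr (by linarith)))
      simp
      linarith)
  have p2 := im_int_pos hst (-1) (f := fun x : ℝ => (fun ζ : ℂ => 1 / (ζ - z)) (x + q * I))
    (fun x hx => cat_h (hca x q (Or.inr (by linarith)))) (by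
      intro x hx
      simp only
      rw [hinv (-1) x q (Or.inr (by linarith))]
      apply div_pos _ (hns x q (Or.inr (by linarith)))
      simp
      linarith)
  have p3 := im_int_pos hpq I (f := fun y : ℝ => (fun ζ : ℂ => 1 / (ζ - z)) (t + y * I))
    (fun y hy => cat_v (hca t y (Or.inl (by linarith)))) (by
      intro y hy
      simp only
      rw [hinv I t y (Or.inl (by linarith))]
      apply div_pos _ (hns t y (Or.inl (by linarith)))
      simp
      linarith)
  have p4 := im_int_pos hpq (-I) (f := fun y : ℝ => (fun ζ : ℂ => 1 / (ζ - z)) (s + y * I))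
    (fun y hy => cat_v (hca s y (Or.inl (by linarith)))) (by
      intro y hy
      simp only
      rw [hinv (-I) s y (Or.inl (by linarith))]
      apply div_pos _ (hns s y (Or.inl (by linarith)))
      simp
      linarith)
  have e : RI (fun ζ => 1 / (ζ - z)) s t p q =
      1 * (∫ x in s..t, (fun ζ : ℂ => 1 / (ζ - z)) (x + p * I)) +
      (-1) * (∫ x in s..t, (fun ζ : ℂ => 1 / (ζ - z)) (x + q * I)) +
      I * (∫ y in p..q, (fun ζ : ℂ => 1 / (ζ - z)) (t + y * I)) +
      (-I) * (∫ y in p..q, (fun ζ : ℂ => 1 / (ζ - z)) (s + y * I)) := by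
    unfold RI
    ring
  rw [e]
  simp only [Complex.add_im]
  linarith


/-- Removability of the Cantor set for functions with a harmonic majorant of the square. -/
theorem removable {v : ℂ → ℝ} {h : ℂ → ℂ} {η : ℝ} (hη : 0 < η) (hη4 : η ≤ 1 / 4)
    (hd : ∀ ζ : ℂ, 3 / 4 < ζ.re → ζ.re < 3 / 2 → |ζ.im| < η → (ζ.im ≠ 0 ∨ ζ.re ∉ FF) →
      DifferentiableAt ℂ h ζ)
    (hv : ∀ ζ : ℂ, 3 / 4 < ζ.re → ζ.re < 3 / 2 → |ζ.im| < η → ζ.im ≠ 0 → HarmonicAt v ζ)
    (hle : ∀ ζ : ℂ, 3 / 4 < ζ.re → ζ.re < 3 / 2 → |ζ.im| < η → ζ.im ≠ 0 → ‖h ζ‖ ^ 2 ≤ v ζ) :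
    ∃ ht : ℂ → ℂ,
      (∀ ζ : ℂ, 7 / 8 < ζ.re → ζ.re < 5 / 4 → |ζ.im| < η / 2 → DifferentiableAt ℂ ht ζ) ∧
      ∀ ζ : ℂ, 7 / 8 < ζ.re → ζ.re < 5 / 4 → |ζ.im| < η / 2 → (ζ.im ≠ 0 ∨ ζ.re ∉ FF) →
        ht ζ = h ζ := by
  obtain ⟨C1, hC1, hsing⟩ := sing_bound hη hη4 hv hle
  set H := η / 2 with hH
  have hH0 : 0 < H := by positivity
  have him : ∀ x y : ℝ, ((x : ℂ) + y * I).im = y := by intro x y; simp
  have hre : ∀ x y : ℝ, ((x : ℂ) + y * I).re = x := by intro x y; simp
  have ha : (7 / 8 : ℝ) ∉ FF := fun hf => by have := (FF_sub hf).1; linarith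
  have hb : (5 / 4 : ℝ) ∉ FF := fun hf => by have := (FF_sub hf).2; linarith
  have hd' : ∀ x ∈ Icc (7 / 8 : ℝ) (5 / 4), ∀ y : ℝ, |y| ≤ H → (y ≠ 0 ∨ x ∉ FF) →
      DifferentiableAt ℂ h (x + y * I) := by
    intro x hx y hy hor
    apply hd
    · rw [hre]; linarith [hx.1]
    · rw [hre]; linarith [hx.2]
    · rw [him]; linarith
    · rw [him, hre]; exact hor
  have hnH : |(-H)| ≤ H := by rw [abs_neg, abs_of_pos hH0]
  have hpH : |H| ≤ H := by rw [abs_of_pos hH0]
  have hBC : BC h (7 / 8) (5 / 4) (-H) H := by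
    refine ⟨?_, ?_, ?_, ?_⟩
    · intro x hx
      exact (hd' x hx (-H) hnH (Or.inl (by linarith))).continuousAt
    · intro x hx
      exact (hd' x hx H hpH (Or.inl (by linarith))).continuousAt
    · intro y hy
      exact (hd' (7 / 8) ⟨le_rfl, by norm_num⟩ y (abs_le.mpr hy) (Or.inr ha)).continuousAt
    · intro y hy
      exact (hd' (5 / 4) ⟨by norm_num, le_rfl⟩ y (abs_le.mpr hy) (Or.inr hb)).continuousAt
  have hBC1 : BC (fun _ => (1 : ℂ)) (7 / 8) (5 / 4) (-H) H :=
    ⟨fun _ _ => continuousAt_const, fun _ _ => continuousAt_const,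
      fun _ _ => continuousAt_const, fun _ _ => continuousAt_const⟩
  set Φ : ℂ → ℂ := fun z => RI (fun ζ => h ζ / (ζ - z)) (7 / 8) (5 / 4) (-H) H with hΦ
  set c : ℂ → ℂ := fun z => RI (fun ζ => 1 / (ζ - z)) (7 / 8) (5 / 4) (-H) H with hcdef
  have hc0 : ∀ z : ℂ, 7 / 8 < z.re → z.re < 5 / 4 → |z.im| < H → c z ≠ 0 := by
    intro z h1 h2 h3 h0
    rw [abs_lt] at h3
    have := RI_kernel (s := 7 / 8) (t := 5 / 4) (p := -H) (q := H) (by norm_num) (by linarith)
      h1 h2 h3.1 h3.2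
    have e : c z = RI (fun ζ => 1 / (ζ - z)) (7 / 8) (5 / 4) (-H) H := rfl
    rw [← e, h0] at this
    simp at this
  have hdiff : ∀ z : ℂ, 7 / 8 < z.re → z.re < 5 / 4 → |z.im| < H →
      DifferentiableAt ℂ (fun z => Φ z / c z) z := by
    intro z h1 h2 h3
    have h3' := abs_lt.mp h3
    exact (RI_diff (by norm_num) (by linarith) hBC h1 h2 h3'.1 h3'.2).div
      (RI_diff (by norm_num) (by linarith) hBC1 h1 h2 h3'.1 h3'.2) (hc0 z h1 h2 h3)
  -- equality off the real line
  have hoff : ∀ z : ℂ, 7 / 8 < z.re → z.re < 5 / 4 → |z.im| < H → z.im ≠ 0 →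
      Φ z / c z = h z := by
    intro z h1 h2 h3 h4
    have h3' := abs_lt.mp h3
    set y0 := |z.im| / 2 with hy0
    have hy0p : 0 < y0 := by have := abs_pos.mpr h4; positivity
    have hy0H : y0 < H := by linarith
    set g := dslope h z with hg
    have hUopen : IsOpen {ζ : ℂ | 3 / 4 < ζ.re ∧ ζ.re < 3 / 2 ∧ |ζ.im| < η ∧ ζ.im ≠ 0} := by
      have o1 : IsOpen {ζ : ℂ | 3 / 4 < ζ.re} := isOpen_lt continuous_const Complex.continuous_re
      have o2 : IsOpen {ζ : ℂ | ζ.re < 3 / 2} := isOpen_lt Complex.continuous_re continuous_const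
      have o3 : IsOpen {ζ : ℂ | |ζ.im| < η} := isOpen_lt Complex.continuous_im.abs continuous_const
      have o4 : IsOpen {ζ : ℂ | ζ.im ≠ 0} := isOpen_ne_fun Complex.continuous_im continuous_const
      exact o1.inter (o2.inter (o3.inter o4))
    have hzU : z ∈ {ζ : ℂ | 3 / 4 < ζ.re ∧ ζ.re < 3 / 2 ∧ |ζ.im| < η ∧ ζ.im ≠ 0} :=
      ⟨by linarith, by linarith, by linarith, h4⟩
    have hgd : ∀ x ∈ Icc (7 / 8 : ℝ) (5 / 4), ∀ y : ℝ, |y| ≤ H → (y ≠ 0 ∨ x ∉ FF) →
        DifferentiableAt ℂ g (x + y * I) := by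
      intro x hx y hy hor
      by_cases hζ : (x : ℂ) + y * I = z
      · rw [hζ]
        have h5 : DifferentiableOn ℂ h {ζ : ℂ | 3 / 4 < ζ.re ∧ ζ.re < 3 / 2 ∧ |ζ.im| < η ∧
            ζ.im ≠ 0} := by
          rintro ζ ⟨b1, b2, b3, b4⟩
          exact (hd ζ b1 b2 b3 (Or.inl b4)).differentiableWithinAt
        have h6 := (Complex.differentiableOn_dslope (hUopen.mem_nhds hzU)).mpr h5
        exact h6.differentiableAt (hUopen.mem_nhds hzU)
      · exact (differentiableAt_dslope_of_ne hζ).mpr (hd' x hx y hy hor)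
    have hvi : ∀ x ∈ Icc (7 / 8 : ℝ) (5 / 4), x ∉ FF → ∀ p q : ℝ, |p| ≤ H → |q| ≤ H → p ≤ q →
        IntervalIntegrable (fun y : ℝ => g (x + y * I)) volume p q := by
      intro x hx hxF p q hp hq hpq
      apply int_of_cont hpq
      intro y hy
      apply cat_v
      apply (hgd x hx y _ (Or.inr hxF)).continuousAt
      rw [abs_le] at hp hq ⊢
      constructor <;> linarith [hy.1, hy.2]
    have m78 : (7 / 8 : ℝ) ∈ Icc (7 / 8 : ℝ) (5 / 4) := ⟨le_rfl, by norm_num⟩
    have m54 : (5 / 4 : ℝ) ∈ Icc (7 / 8 : ℝ) (5 / 4) := ⟨by norm_num, le_rfl⟩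
    have hy0a : |y0| ≤ H := by rw [abs_of_pos hy0p]; exact hy0H.le
    have hy0n : |(-y0)| ≤ H := by rw [abs_neg]; exact hy0a
    have e1 : RI g (7 / 8) (5 / 4) (-H) H = RI g (7 / 8) (5 / 4) (-H) (-y0) +
        RI g (7 / 8) (5 / 4) (-y0) H :=
      RI_vert g (hvi _ m54 hb _ _ hnH hy0n (by linarith)) (hvi _ m54 hb _ _ hy0n hpH (by linarith))
        (hvi _ m78 ha _ _ hnH hy0n (by linarith)) (hvi _ m78 ha _ _ hy0n hpH (by linarith))
    have e2 : RI g (7 / 8) (5 / 4) (-y0) H = RI g (7 / 8) (5 / 4) (-y0) y0 +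
        RI g (7 / 8) (5 / 4) y0 H :=
      RI_vert g (hvi _ m54 hb _ _ hy0n hy0a (by linarith)) (hvi _ m54 hb _ _ hy0a hpH (by linarith))
        (hvi _ m78 ha _ _ hy0n hy0a (by linarith)) (hvi _ m78 ha _ _ hy0a hpH (by linarith))
    have z1 : RI g (7 / 8) (5 / 4) (-H) (-y0) = 0 := by
      apply RI_zero g (by norm_num) (by linarith)
      intro x hx y hy
      apply hgd x hx y _ (Or.inl (by linarith [hy.2]))
      rw [abs_le]; constructor <;> linarith [hy.1, hy.2]
    have z3 : RI g (7 / 8) (5 / 4) y0 H = 0 := by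
      apply RI_zero g (by norm_num) (by linarith)
      intro x hx y hy
      apply hgd x hx y _ (Or.inl (by linarith [hy.1]))
      rw [abs_le]; constructor <;> linarith [hy.1, hy.2]
    have z2 : RI g (7 / 8) (5 / 4) (-y0) y0 = 0 := by
      apply strip_zero g hy0p (C := (C1 + ‖h z‖) / y0) (by positivity)
      · intro x hx y hy hor
        exact hgd x hx y (hy.trans hy0H.le) hor
      · intro x hx y hy hyle
        have hya : 0 < |y| := abs_pos.mpr hy
        have hdist : y0 ≤ ‖(x : ℂ) + y * I - z‖ := by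
          have h5 : |((x : ℂ) + y * I - z).im| ≤ ‖(x : ℂ) + y * I - z‖ :=
            Complex.abs_im_le_norm _
          rw [Complex.sub_im, him] at h5
          have h6 : |z.im| ≤ |y - z.im| + |y| := by
            have := abs_sub_abs_le_abs_sub z.im y
            rw [abs_sub_comm] at this
            linarith
          linarith
        have hζ : (x : ℂ) + y * I ≠ z := by
          intro h0
          rw [h0, sub_self, norm_zero] at hdist
          linarith
        have hgv : g (x + y * I) = (h (x + y * I) - h z) / (x + y * I - z) := by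
          rw [hg, dslope_of_ne _ hζ, slope_def_field]
        have hys : √|y| ≤ 1 := by
          rw [Real.sqrt_le_iff]
          exact ⟨zero_le_one, by rw [one_pow]; linarith⟩
        have hysp : 0 < √|y| := Real.sqrt_pos.mpr hya
        have h7 := hsing x hx y hy (hyle.trans hy0H.le)
        have h8 : ‖h z‖ ≤ ‖h z‖ / √|y| := by
          rw [le_div_iff₀ hysp]
          nlinarith [norm_nonneg (h z)]
        rw [hgv, norm_div]
        calc ‖h (x + y * I) - h z‖ / ‖(x : ℂ) + y * I - z‖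
            ≤ (C1 / √|y| + ‖h z‖ / √|y|) / y0 := by
              gcongr
              exact (norm_sub_le _ _).trans (add_le_add h7 h8)
          _ = (C1 + ‖h z‖) / y0 / √|y| := by field_simp
    have hRg : RI g (7 / 8) (5 / 4) (-H) H = 0 := by
      rw [e1, e2, z1, z2, z3]; ring
    have hbne : ∀ x y : ℝ, (x ≠ z.re ∨ y ≠ z.im) → (x : ℂ) + y * I ≠ z := by
      intro x y h5 h0
      rcases h5 with h5 | h5
      · apply h5; have := congrArg Complex.re h0; rw [hre] at this; exact this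
      · apply h5; have := congrArg Complex.im h0; rw [him] at this; exact this
    have hgeq : ∀ x y : ℝ, (x ≠ z.re ∨ y ≠ z.im) → g (x + y * I) =
        (fun ζ => (fun ζ => h ζ / (ζ - z)) ζ - h z * (fun ζ => 1 / (ζ - z)) ζ) (x + y * I) := by
      intro x y h5
      simp only
      rw [hg, dslope_of_ne _ (hbne x y h5), slope_def_field]
      ring
    have hcongr := RI_congr (φ := g) (ψ := fun ζ => (fun ζ => h ζ / (ζ - z)) ζ -
      h z * (fun ζ => 1 / (ζ - z)) ζ) (s := 7 / 8) (t := 5 / 4) (p := -H) (q := H)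
      (by norm_num) (by linarith)
      (fun x _ => hgeq x (-H) (Or.inr (by linarith)))
      (fun x _ => hgeq x H (Or.inr (by linarith)))
      (fun y _ => hgeq (7 / 8) y (Or.inl (by linarith)))
      (fun y _ => hgeq (5 / 4) y (Or.inl (by linarith)))
    have hBCdiv : ∀ φ : ℂ → ℂ, BC φ (7 / 8) (5 / 4) (-H) H →
        BC (fun ζ => φ ζ / (ζ - z)) (7 / 8) (5 / 4) (-H) H := by
      rintro φ ⟨b1, b2, b3, b4⟩
      have hdv : ∀ x y : ℝ, (x ≠ z.re ∨ y ≠ z.im) → ContinuousAt φ (x + y * I) →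
          ContinuousAt (fun ζ => φ ζ / (ζ - z)) (x + y * I) := by
        intro x y h5 h6
        exact h6.div (by fun_prop) (sub_ne_zero.mpr (hbne x y h5))
      exact ⟨fun x hx => hdv x (-H) (Or.inr (by linarith)) (b1 x hx),
        fun x hx => hdv x H (Or.inr (by linarith)) (b2 x hx),
        fun y hy => hdv (7 / 8) y (Or.inl (by linarith)) (b3 y hy),
        fun y hy => hdv (5 / 4) y (Or.inl (by linarith)) (b4 y hy)⟩
    have hlin := RI_lin (s := 7 / 8) (t := 5 / 4) (p := -H) (q := H) (by norm_num) (by linarith)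
      (h z) (hBCdiv h hBC) (hBCdiv (fun _ => 1) hBC1)
    have hfin : Φ z - h z * c z = 0 := by
      rw [← hlin]
      rw [← hRg, hcongr]
    rw [div_eq_iff (hc0 z h1 h2 h3)]
    exact sub_eq_zero.mp hfin
  refine ⟨fun z => Φ z / c z, hdiff, ?_⟩
  intro z h1 h2 h3 h4
  by_cases h5 : z.im = 0
  · -- a real point off the Cantor set
    have h6 : z.re ∉ FF := by
      rcases h4 with h4 | h4
      · exact absurd h5 h4
      · exact h4
    have hcont1 : ContinuousAt (fun t : ℝ => Φ (z + t * I) / c (z + t * I)) 0 := by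
      have hh := (hdiff z h1 h2 h3).continuousAt
      have hz0 : z = z + ((0 : ℝ) : ℂ) * I := by simp
      rw [hz0] at hh
      exact ContinuousAt.comp (f := fun t : ℝ => z + (t : ℂ) * I)
        (g := fun z => Φ z / c z) hh (by fun_prop)
    have hcont2 : ContinuousAt (fun t : ℝ => h (z + t * I)) 0 := by
      have hh := (hd z (by linarith) (by linarith) (by linarith) (Or.inr h6)).continuousAt
      have hz0 : z = z + ((0 : ℝ) : ℂ) * I := by simp
      rw [hz0] at hh
      exact ContinuousAt.comp (f := fun t : ℝ => z + (t : ℂ) * I) (g := h) hh (by fun_prop)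
    have l1 := hcont1.tendsto.mono_left (nhdsWithin_le_nhds (s := Ioi 0))
    have l2 := hcont2.tendsto.mono_left (nhdsWithin_le_nhds (s := Ioi 0))
    simp only [Complex.ofReal_zero, zero_mul, add_zero] at l1 l2
    have l3 : (fun t : ℝ => Φ (z + t * I) / c (z + t * I)) =ᶠ[𝓝[>] 0] fun t : ℝ => h (z + t * I) := by
      have hmem : Ioo (0 : ℝ) H ∈ 𝓝[>] (0 : ℝ) := Ioo_mem_nhdsGT hH0
      filter_upwards [hmem] with t ht
      have e1 : (z + t * I).re = z.re := by simp
      have e2 : (z + t * I).im = t := by simp [h5]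
      apply hoff
      · rw [e1]; exact h1
      · rw [e1]; exact h2
      · rw [e2, abs_of_pos ht.1]; exact ht.2
      · rw [e2]; exact ht.1.ne'
    exact tendsto_nhds_unique (l1.congr' l3) l2
  · exact hoff z h1 h2 h3 h5

end Pool.Agent.R860.HD
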