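import Pool.Agent.R860.HD.Domain
import Pool.Agent.R860.HD.Remov

/-!
# Functions in the Hardy space are polynomials
-/

set_option autoImplicit false

namespace Pool.Agent.R860.HD

open Set Filter Topology Complex InnerProductSpace Metric

theorem DD_dense {N : ℕ} (hN : 1 ≤ N) (z : ℂ) : (𝓝[DD N] z).NeBot := by
  rw [← mem_closure_iff_nhdsWithin_neBot, Metric.mem_closure_iff]
  intro r hr
  obtain ⟨y, hy, hyO⟩ := OR_dense hN z hr
  exact ⟨y, OR_sub N hyO, by rw [dist_comm]; exact hy⟩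

/-- Local extension. -/
theorem local_ext {N : ℕ} (hN : 1 ≤ N) {f : ℂ → ℂ} {u : ℂ → ℝ} (hf : DifferentiableOn ℂ f (DD N))
    (hu : HarmonicOnNhd u (DD N)) (hle : ∀ z ∈ DD N, ‖f z‖ ^ 2 ≤ u z) (z0 : ℂ) :
    ∃ U : Set ℂ, IsOpen U ∧ z0 ∈ U ∧ ∃ h : ℂ → ℂ, (∀ z ∈ U, DifferentiableAt ℂ h z) ∧
      ∀ z ∈ U, z ∈ DD N → h z = f z := by
  have hfd : ∀ z ∈ DD N, DifferentiableAt ℂ f z :=
    fun z hz => hf.differentiableAt ((DD_open hN).mem_nhds hz)
  by_cases hz0 : z0 ∈ DD N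
  · exact ⟨DD N, DD_open hN, hz0, f, hfd, fun _ _ _ => rfl⟩
  · obtain ⟨l, w, η, hl, hw, hzw, hη, hη4, hstr, hstr2⟩ := local_struct hN hz0
    obtain ⟨ht, hd, heq⟩ := removable (v := fun ζ => u (l * ζ)) (h := fun ζ => f (l * ζ)) hη hη4
      (fun ζ h1 h2 h3 h4 => (hfd _ (hstr ζ h1 h2 h3 h4)).comp ζ
        ((differentiableAt_id).const_mul l))
      (fun ζ h1 h2 h3 h4 => harmonic_comp (g := fun ζ => l * ζ)
        (hu _ (hstr ζ h1 h2 h3 (Or.inl h4))) (by fun_prop))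
      (fun ζ h1 h2 h3 h4 => hle _ (hstr ζ h1 h2 h3 (Or.inl h4)))
    obtain ⟨hw1, hw2⟩ := FF_sub hw
    have hcd : Continuous fun z : ℂ => z / l := by fun_prop
    refine ⟨{z | 7 / 8 < (z / l).re ∧ (z / l).re < 5 / 4 ∧ |(z / l).im| < η / 2}, ?_, ?_,
      fun z => ht (z / l), ?_, ?_⟩
    · exact (isOpen_lt continuous_const (Complex.continuous_re.comp hcd)).inter
        ((isOpen_lt (Complex.continuous_re.comp hcd) continuous_const).inter
        (isOpen_lt (Complex.continuous_im.comp hcd).abs continuous_const))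
    · have e : z0 / l = (w : ℂ) := by rw [hzw]; field_simp
      simp only [Set.mem_ofPred_eq, e, Complex.ofReal_re, Complex.ofReal_im, abs_zero]
      refine ⟨by linarith, by linarith, by positivity⟩
    · rintro z ⟨h1, h2, h3⟩
      exact (hd _ h1 h2 h3).comp z (differentiableAt_id.div_const l)
    · rintro z ⟨h1, h2, h3⟩ hzD
      have e : l * (z / l) = z := by field_simp
      have h4 : (z / l).im ≠ 0 ∨ (z / l).re ∉ FF := by
        by_contra hcon
        push Not at hcon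
        obtain ⟨h5, h6⟩ := hcon
        have h7 := hstr2 _ h6
        have h8 : (((z / l).re : ℝ) : ℂ) = z / l := by
          apply Complex.ext
          · simp
          · rw [h5]; simp
        rw [h8, e] at h7
        exact h7 hzD
      have := heq (z / l) h1 h2 h3 h4
      rw [e] at this
      exact this

/-- Entire extension. -/
theorem entire_ext {N : ℕ} (hN : 1 ≤ N) {f : ℂ → ℂ} {u : ℂ → ℝ}
    (hf : DifferentiableOn ℂ f (DD N)) (hu : HarmonicOnNhd u (DD N))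
    (hle : ∀ z ∈ DD N, ‖f z‖ ^ 2 ≤ u z) :
    ∃ F : ℂ → ℂ, Differentiable ℂ F ∧ ∀ z ∈ DD N, F z = f z := by
  choose U hUo hzU h hd heq using local_ext hN hf hu hle
  have hkey : ∀ z0 z, z ∈ U z0 → h z z = h z0 z := by
    intro z0 z hz
    have := DD_dense hN z
    have c1 : Tendsto (h z) (𝓝[DD N] z) (𝓝 (h z z)) :=
      ((hd z z (hzU z)).continuousAt).mono_left nhdsWithin_le_nhds
    have c2 : Tendsto (h z0) (𝓝[DD N] z) (𝓝 (h z0 z)) :=
      ((hd z0 z hz).continuousAt).mono_left nhdsWithin_le_nhds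
    have e : h z =ᶠ[𝓝[DD N] z] h z0 := by
      have m1 : U z ∈ 𝓝[DD N] z := mem_nhdsWithin_of_mem_nhds ((hUo z).mem_nhds (hzU z))
      have m2 : U z0 ∈ 𝓝[DD N] z := mem_nhdsWithin_of_mem_nhds ((hUo z0).mem_nhds hz)
      filter_upwards [m1, m2, self_mem_nhdsWithin] with y h1 h2 h3
      rw [heq z y h1 h3, heq z0 y h2 h3]
    exact tendsto_nhds_unique (c1.congr' e) c2
  refine ⟨fun z => h z z, ?_, ?_⟩
  · intro z0
    apply (hd z0 z0 (hzU z0)).congr_of_eventuallyEq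
    filter_upwards [(hUo z0).mem_nhds (hzU z0)] with z hz
    exact hkey z0 z hz
  · intro z hz
    exact heq z z (hzU z) hz

/-- The functions in the Hardy space are polynomials of bounded degree. -/
theorem poly {N : ℕ} (hN : 1 ≤ N) : ∃ M : ℕ, ∀ (f : ℂ → ℂ) (u : ℂ → ℝ),
    DifferentiableOn ℂ f (DD N) → HarmonicOnNhd u (DD N) → (∀ z ∈ DD N, ‖f z‖ ^ 2 ≤ u z) →
      ∃ c : ℕ → ℂ, ∀ z ∈ DD N, f z = ∑ n ∈ Finset.range (M + 1), c n * z ^ n := by
  obtain ⟨A, B, hA, hB, hgrow⟩ := growth hN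
  obtain ⟨M, hM⟩ := pow_unbounded_of_one_lt A (by norm_num : (1 : ℝ) < 4)
  refine ⟨M, ?_⟩
  intro f u hf hu hle
  obtain ⟨F, hF, hFf⟩ := entire_ext hN hf hu hle
  have hu0 : ∀ z ∈ DD N, 0 ≤ u z := fun z hz => (sq_nonneg _).trans (hle z hz)
  set x0 : ℂ := ((3 / 2 : ℝ) : ℂ) with hx0
  have hx0s : x0 ∈ sphere (0 : ℂ) (3 / 2) := by
    rw [mem_sphere, dist_zero_right, hx0, Complex.norm_real, Real.norm_of_nonneg (by norm_num)]
  have hsD : ∀ k : ℕ, ∀ y ∈ sphere (0 : ℂ) (3 / 2), 2 ^ k * y ∈ DD N := by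
    intro k y hy
    apply DH_scale hN
    rw [mem_sphere, dist_zero_right] at hy
    left; right
    constructor <;> rw [hy] <;> norm_num
  have hx0D : x0 ∈ DD N := by simpa using hsD 0 x0 hx0s
  set C := √(B * u x0) with hC
  have hux0 := hu0 x0 hx0D
  have hC2 : C ^ 2 = B * u x0 := Real.sq_sqrt (by positivity)
  have hC0 : 0 ≤ C := Real.sqrt_nonneg _
  -- growth on circles
  have hcirc : ∀ k : ℕ, ∀ z ∈ sphere (0 : ℂ) (2 ^ k * (3 / 2)), ‖F z‖ ≤ C * (2 ^ k) ^ M := by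
    intro k z hz
    have h2k : (0 : ℝ) < 2 ^ k := by positivity
    have hy : z / 2 ^ k ∈ sphere (0 : ℂ) (3 / 2) := by
      rw [mem_sphere, dist_zero_right] at hz ⊢
      rw [norm_div, hz, norm_pow]
      simp
    have hzy : 2 ^ k * (z / 2 ^ k) = z := by
      have : (2 : ℂ) ^ k ≠ 0 := pow_ne_zero _ two_ne_zero
      field_simp
    have h1 := hgrow u hu hu0 k _ hy
    have hzD := hsD k _ hy
    rw [hzy] at h1 hzD
    rw [hFf z hzD]
    have h2 := (hle z hzD).trans h1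
    have h3 : A ^ k ≤ ((2 ^ k) ^ M) ^ 2 := by
      have e : (((2 : ℝ) ^ k) ^ M) ^ 2 = (4 ^ M) ^ k := by
        rw [← pow_mul, ← pow_mul, ← pow_mul]
        have : (4 : ℝ) = 2 ^ 2 := by norm_num
        rw [this, ← pow_mul]
        congr 1
        ring
      rw [e]
      gcongr
    have h4 : ‖f z‖ ^ 2 ≤ (C * (2 ^ k) ^ M) ^ 2 := by
      rw [mul_pow, hC2]
      calc ‖f z‖ ^ 2 ≤ B * A ^ k * u x0 := h2
        _ ≤ B * ((2 ^ k) ^ M) ^ 2 * u x0 := by gcongr
        _ = B * u x0 * ((2 ^ k) ^ M) ^ 2 := by ring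
    exact (pow_le_pow_iff_left₀ (norm_nonneg _) (by positivity) two_ne_zero).mp h4
  -- vanishing of high derivatives
  have hvan : ∀ n : ℕ, M < n → iteratedDeriv n F 0 = 0 := by
    intro n hn
    have hb : ∀ k : ℕ, ‖iteratedDeriv n F 0‖ ≤ n.factorial * C / 2 ^ k := by
      intro k
      have h2k : (0 : ℝ) < 2 ^ k := by positivity
      have h2k1 : (1 : ℝ) ≤ 2 ^ k := one_le_pow₀ (by norm_num)
      have h1 := Complex.norm_iteratedDeriv_le_of_forall_mem_sphere_norm_le (c := 0)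
        (R := 2 ^ k * (3 / 2)) (C := C * (2 ^ k) ^ M) (f := F) n (by positivity)
        (hF.diffContOnCl) (hcirc k)
      refine h1.trans ?_
      rw [div_le_div_iff₀ (by positivity) (by positivity)]
      have h3 : ((2 : ℝ) ^ k) ^ M * 2 ^ k ≤ (2 ^ k * (3 / 2)) ^ n := by
        calc ((2 : ℝ) ^ k) ^ M * 2 ^ k = (2 ^ k) ^ (M + 1) := by rw [pow_succ]
          _ ≤ (2 ^ k) ^ n := pow_le_pow_right₀ h2k1 hn
          _ ≤ (2 ^ k * (3 / 2)) ^ n := by gcongr; linarith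
      have h4 : (0 : ℝ) ≤ n.factorial * C := by positivity
      calc n.factorial * (C * (2 ^ k) ^ M) * 2 ^ k
          = n.factorial * C * ((2 ^ k) ^ M * 2 ^ k) := by ring
        _ ≤ n.factorial * C * (2 ^ k * (3 / 2)) ^ n := by gcongr
    have hlim : Tendsto (fun k : ℕ => n.factorial * C / 2 ^ k) atTop (𝓝 0) := by
      have h1 : Tendsto (fun k : ℕ => (2 : ℝ) ^ k) atTop atTop :=
        tendsto_pow_atTop_atTop_of_one_lt (by norm_num)
      exact h1.const_div_atTop _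
    exact norm_le_zero_iff.mp (ge_of_tendsto' hlim hb)
  refine ⟨fun n => (n.factorial : ℂ)⁻¹ * iteratedDeriv n F 0, ?_⟩
  intro z hz
  rw [← hFf z hz]
  have h1 := Complex.taylorSeries_eq_of_entire' (c := 0) (z := z) hF
  rw [← h1, tsum_eq_sum (s := Finset.range (M + 1))]
  · apply Finset.sum_congr rfl
    intro n _
    simp
  · intro n hn
    rw [Finset.mem_range, not_lt] at hn
    rw [hvan n (by omega)]
    simp

end Pool.Agent.R860.HD
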