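import Pool.Agent.R860.HD.Pot

/-!
# The potential is harmonic and large
-/

set_option autoImplicit false

namespace Pool.Agent.R860.HD

open Set Filter Topology Complex InnerProductSpace Metric MeasureTheory

theorem pot_local {W : ℝ → ℝ} (hW : AEMeasurable W mu1) {t0 : ℂ} {δ b : ℝ} (hδ : 0 < δ)
    (hb : 1 ≤ b) (h : ∀ᵐ x ∂mu1, b ≤ W x ∧ δ * W x ≤ ‖(W x : ℂ) - t0‖) :
    DifferentiableOn ℂ (fun t => ∫ x, Complex.log (1 - (t - t0) / (W x - t0)) ∂mu1)
      (ball t0 (δ / 2)) ∧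
    (∀ t ∈ ball t0 (δ / 2), ‖∫ x, Complex.log (1 - (t - t0) / (W x - t0)) ∂mu1‖ ≤ 1 / b) ∧
    (∀ t ∈ ball t0 (δ / 2), ∫ x, Real.log ‖1 - t / (W x : ℂ)‖ ∂mu1 =
      ∫ x, Real.log ‖1 - t0 / (W x : ℂ)‖ ∂mu1 +
        (∫ x, Complex.log (1 - (t - t0) / (W x - t0)) ∂mu1).re) := by
  have hWc : AEMeasurable (fun x => (W x : ℂ)) mu1 :=
    Complex.measurable_ofReal.comp_aemeasurable hW
  have hsmall : ∀ t ∈ ball t0 (δ / 2), ∀ x, (b ≤ W x ∧ δ * W x ≤ ‖(W x : ℂ) - t0‖) →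
      ‖(t - t0) / ((W x : ℂ) - t0)‖ ≤ 1 / 2 / b := by
    intro t ht x ⟨h1, h2⟩
    rw [mem_ball, dist_eq_norm] at ht
    have hWp : 0 < W x := by linarith
    rw [norm_div]
    calc ‖t - t0‖ / ‖(W x : ℂ) - t0‖ ≤ (δ / 2) / (δ * b) := by
          have h3 : δ * b ≤ ‖(W x : ℂ) - t0‖ := le_trans (by gcongr) h2
          gcongr
      _ = 1 / 2 / b := by field_simp
  have hsmall2 : ∀ t ∈ ball t0 (δ / 2), ∀ x, (b ≤ W x ∧ δ * W x ≤ ‖(W x : ℂ) - t0‖) →
      ‖(t - t0) / ((W x : ℂ) - t0)‖ ≤ 1 / 2 := by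
    intro t ht x hx
    refine (hsmall t ht x hx).trans ?_
    exact div_le_self (by norm_num) hb
  have hmeas : ∀ t : ℂ, AEStronglyMeasurable
      (fun x => Complex.log (1 - (t - t0) / (W x - t0))) mu1 := by
    intro t
    have h1 : AEMeasurable (fun x => 1 - (t - t0) / ((W x : ℂ) - t0)) mu1 :=
      (aemeasurable_const.div (hWc.sub_const t0)).const_sub 1
    exact (Complex.measurable_log.comp_aemeasurable h1).aestronglyMeasurable
  have hlogb : ∀ t ∈ ball t0 (δ / 2), ∀ᵐ x ∂mu1,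
      ‖Complex.log (1 - (t - t0) / (W x - t0))‖ ≤ 1 / b := by
    intro t ht
    filter_upwards [h] with x hx
    have h1 := hsmall t ht x hx
    have h2 := Complex.norm_log_one_add_half_le_self (z := -((t - t0) / ((W x : ℂ) - t0)))
      (by rw [norm_neg]; exact hsmall2 t ht x hx)
    rw [norm_neg, ← sub_eq_add_neg] at h2
    have h3 : (3 : ℝ) / 2 * (1 / 2 / b) ≤ 1 / b := by
      have : 0 < 1 / b := by positivity
      have e : (3 : ℝ) / 2 * (1 / 2 / b) = 3 / 4 * (1 / b) := by ring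
      rw [e]; linarith
    linarith
  have hlogi : ∀ t ∈ ball t0 (δ / 2), Integrable
      (fun x => Complex.log (1 - (t - t0) / (W x - t0))) mu1 :=
    fun t ht => Integrable.of_bound (hmeas t) (1 / b) (hlogb t ht)
  refine ⟨?_, ?_, ?_⟩
  · intro t1 ht1
    have key := hasDerivAt_integral_of_dominated_loc_of_deriv_le (μ := mu1)
      (F := fun t x => Complex.log (1 - (t - t0) / ((W x : ℂ) - t0)))
      (F' := fun t x => (-(1 / ((W x : ℂ) - t0))) / (1 - (t - t0) / ((W x : ℂ) - t0)))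
      (x₀ := t1) (s := ball t0 (δ / 2)) (bound := fun _ => 2 / δ)
      (isOpen_ball.mem_nhds ht1) (Filter.Eventually.of_forall hmeas) (hlogi t1 ht1) (by
        have h1 : AEMeasurable (fun x => 1 - (t1 - t0) / ((W x : ℂ) - t0)) mu1 :=
          (aemeasurable_const.div (hWc.sub_const t0)).const_sub 1
        have h2 : AEMeasurable (fun x => -(1 / ((W x : ℂ) - t0))) mu1 :=
          (aemeasurable_const.div (hWc.sub_const t0)).neg
        exact (h2.div h1).aestronglyMeasurable) (by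
        filter_upwards [h] with x hx t ht
        have hWp : 1 ≤ W x := by linarith [hx.1]
        have h1 : δ ≤ ‖(W x : ℂ) - t0‖ := by
          have := hx.2
          nlinarith
        have h2 := hsmall2 t ht x hx
        have h3 : 1 / 2 ≤ ‖1 - (t - t0) / ((W x : ℂ) - t0)‖ := by
          have := norm_sub_norm_le (1 : ℂ) ((t - t0) / ((W x : ℂ) - t0))
          rw [norm_one] at this
          linarith
        rw [norm_div, norm_neg, norm_div, norm_one]
        calc 1 / ‖(W x : ℂ) - t0‖ / ‖1 - (t - t0) / ((W x : ℂ) - t0)‖ ≤ 1 / δ / (1 / 2) := by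
              gcongr
          _ = 2 / δ := by field_simp) (integrable_const _) (by
        filter_upwards [h] with x hx t ht
        have h2 := hsmall2 t ht x hx
        have h3 : (1 : ℂ) - (t - t0) / ((W x : ℂ) - t0) ∈ slitPlane := by
          left
          have h4 := Complex.abs_re_le_norm ((t - t0) / ((W x : ℂ) - t0))
          rw [Complex.sub_re, Complex.one_re]
          have := le_abs_self ((t - t0) / ((W x : ℂ) - t0)).re
          linarith
        have h5 : HasDerivAt (fun t : ℂ => 1 - (t - t0) / ((W x : ℂ) - t0))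
            (-(1 / ((W x : ℂ) - t0))) t := by
          have := (((hasDerivAt_id t).sub_const t0).div_const ((W x : ℂ) - t0)).const_sub 1
          simpa using this
        exact h5.clog h3)
    exact key.2.differentiableAt.differentiableWithinAt
  · intro t ht
    have h1 := norm_integral_le_of_norm_le_const (hlogb t ht)
    rw [probReal_univ, mul_one] at h1
    exact h1
  · intro t ht
    have hrei : Integrable (fun x => (Complex.log (1 - (t - t0) / (W x - t0))).re) mu1 :=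
      (hlogi t ht).re
    have e1 : (∫ x, Complex.log (1 - (t - t0) / (W x - t0)) ∂mu1).re =
        ∫ x, (Complex.log (1 - (t - t0) / (W x - t0))).re ∂mu1 := by
      have := Complex.reCLM.integral_comp_comm (hlogi t ht)
      exact this.symm
    have hi0 : Integrable (fun x => Real.log ‖1 - t0 / (W x : ℂ)‖) mu1 := by
      have h1 : AEMeasurable (fun x => 1 - t0 / (W x : ℂ)) mu1 :=
        (aemeasurable_const.div hWc).const_sub 1
      apply Integrable.of_bound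
        (Real.measurable_log.comp_aemeasurable h1.norm).aestronglyMeasurable
        (max |Real.log δ| |Real.log (1 + ‖t0‖)|)
      filter_upwards [h] with x hx
      have hWp : 1 ≤ W x := by linarith [hx.1]
      have hW0 : (W x : ℂ) ≠ 0 := by
        have : W x ≠ 0 := by linarith
        exact_mod_cast this
      have h2 : δ ≤ ‖1 - t0 / (W x : ℂ)‖ := by
        have e : (1 : ℂ) - t0 / (W x : ℂ) = ((W x : ℂ) - t0) / (W x : ℂ) := by field_simp
        rw [e, norm_div, Complex.norm_real, Real.norm_of_nonneg (by linarith),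
          le_div_iff₀ (by linarith)]
        exact hx.2
      have h3 : ‖1 - t0 / (W x : ℂ)‖ ≤ 1 + ‖t0‖ := by
        refine (norm_sub_le _ _).trans ?_
        rw [norm_one, norm_div, Complex.norm_real, Real.norm_of_nonneg (by linarith)]
        gcongr
        exact div_le_self (norm_nonneg _) hWp
      rw [Real.norm_eq_abs]
      exact abs_le_max_abs_abs (Real.log_le_log hδ h2) (Real.log_le_log (by linarith) h3)
    rw [e1, ← integral_add hi0 hrei]
    apply integral_congr_ae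
    filter_upwards [h] with x hx
    have hWp : 1 ≤ W x := by linarith [hx.1]
    have hW0 : (W x : ℂ) ≠ 0 := by
      have : W x ≠ 0 := by linarith
      exact_mod_cast this
    have hWt : (W x : ℂ) - t0 ≠ 0 := by
      rw [← norm_pos_iff]
      have := hx.2
      have : 0 < δ * W x := by positivity
      linarith [hx.2]
    have h2 := hsmall2 t ht x hx
    have h3 : (1 : ℂ) - (t - t0) / ((W x : ℂ) - t0) ≠ 0 := by
      intro h0
      have : (t - t0) / ((W x : ℂ) - t0) = 1 := (sub_eq_zero.mp h0).symm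
      rw [this, norm_one] at h2
      linarith
    have h4 : (1 : ℂ) - t0 / (W x : ℂ) ≠ 0 := by
      have e : (1 : ℂ) - t0 / (W x : ℂ) = ((W x : ℂ) - t0) / (W x : ℂ) := by field_simp
      rw [e]
      exact div_ne_zero hWt hW0
    have h5 : (1 : ℂ) - t / (W x : ℂ) =
        (1 - t0 / (W x : ℂ)) * (1 - (t - t0) / ((W x : ℂ) - t0)) := by
      field_simp
      ring
    rw [h5, norm_mul, Real.log_mul (norm_ne_zero_iff.mpr h4) (norm_ne_zero_iff.mpr h3),
      Complex.log_re]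

theorem delta_ex {N : ℕ} (hN : 1 ≤ N) {z0 : ℂ} (hz0 : z0 ∈ DD N) :
    ∃ δ > 0, ∀ k : ℕ, ∀ x ∈ Ico (0 : ℝ) 1,
      δ * (2 ^ k * ps x) ^ N ≤ ‖(((2 ^ k * ps x) ^ N : ℝ) : ℂ) - z0 ^ N‖ := by
  set t0 := z0 ^ N with ht0
  have hopen : IsOpen (EE N)ᶜ := (EE_closed hN).isOpen_compl
  obtain ⟨d, hd, hball⟩ := Metric.isOpen_iff.mp hopen t0 hz0
  refine ⟨min (1 / 2) (d / (2 * ‖t0‖ + 1)), by positivity, ?_⟩
  intro k x hx
  set W := (2 ^ k * ps x) ^ N with hW
  have hp1 := ps_ge hx.1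
  have hW0 : 0 < W := by positivity
  have hdist : d ≤ ‖(W : ℂ) - t0‖ := by
    by_contra hlt
    push Not at hlt
    have h1 : (W : ℂ) ∈ ball t0 d := by rw [mem_ball, dist_eq_norm]; exact hlt
    exact hball h1 ⟨k, ps x, ps_mem hx.1 hx.2, rfl⟩
  rcases le_or_gt (2 * ‖t0‖) W with h | h
  · have h1 : W - ‖t0‖ ≤ ‖(W : ℂ) - t0‖ := by
      have := norm_sub_norm_le (W : ℂ) t0
      rwa [Complex.norm_real, Real.norm_of_nonneg hW0.le] at this
    calc min (1 / 2) (d / (2 * ‖t0‖ + 1)) * W ≤ 1 / 2 * W := by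
          gcongr; exact min_le_left _ _
      _ ≤ _ := by linarith
  · calc min (1 / 2) (d / (2 * ‖t0‖ + 1)) * W ≤ d / (2 * ‖t0‖ + 1) * (2 * ‖t0‖ + 1) := by
          have h1 : W ≤ 2 * ‖t0‖ + 1 := by linarith
          have h2 : min (1 / 2) (d / (2 * ‖t0‖ + 1)) ≤ d / (2 * ‖t0‖ + 1) := min_le_right _ _
          gcongr
      _ = d := by field_simp
      _ ≤ _ := hdist

theorem pow8 {N : ℕ} (hN : 3 ≤ N) (k : ℕ) : (8 : ℝ) ^ k ≤ (2 ^ k) ^ N := by
  have e : (8 : ℝ) ^ k = (2 ^ k) ^ 3 := by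
    rw [← pow_mul, mul_comm, pow_mul]; norm_num
  rw [e]
  exact pow_le_pow_right₀ (one_le_pow₀ (by norm_num)) hN

theorem half_pow (k : ℕ) : (4 : ℝ) ^ k * (1 / 8 ^ k) = (1 / 2) ^ k := by
  have e : (8 : ℝ) ^ k = 4 ^ k * 2 ^ k := by rw [← mul_pow]; norm_num
  rw [e, one_div_pow]
  field_simp

theorem UU_summable {N : ℕ} (hN : 3 ≤ N) (z : ℂ) :
    Summable fun k : ℕ => 4 ^ k * GG N (z / 2 ^ k) := by
  apply Summable.of_norm_bounded_eventually_nat (g := fun k : ℕ => 2 * ‖z‖ ^ N * (1 / 2 : ℝ) ^ k)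
  · exact (summable_geometric_of_lt_one (by norm_num) (by norm_num)).mul_left _
  · obtain ⟨K, hK⟩ := pow_unbounded_of_one_lt (2 * ‖z‖) (by norm_num : (1 : ℝ) < 2)
    filter_upwards [Filter.eventually_ge_atTop K] with k hk
    have h2k : (0 : ℝ) < 2 ^ k := by positivity
    have h1 : ‖z / 2 ^ k‖ = ‖z‖ / 2 ^ k := by rw [norm_div, norm_pow]; norm_num
    have h2 : ‖z / 2 ^ k‖ ≤ 1 / 2 := by
      rw [h1, div_le_iff₀ h2k]
      have : (2 : ℝ) ^ K ≤ 2 ^ k := pow_le_pow_right₀ (by norm_num) hk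
      linarith
    have h3 := GG_small (by omega : 1 ≤ N) h2
    rw [norm_mul, Real.norm_eq_abs, Real.norm_eq_abs, abs_of_nonneg (by positivity : (0 : ℝ) ≤ 4 ^ k)]
    calc 4 ^ k * |GG N (z / 2 ^ k)| ≤ 4 ^ k * (2 * (‖z‖ / 2 ^ k) ^ N) := by
          rw [h1] at h3; gcongr
      _ = 2 * ‖z‖ ^ N * (4 ^ k * (1 / (2 ^ k) ^ N)) := by rw [div_pow]; ring
      _ ≤ 2 * ‖z‖ ^ N * (4 ^ k * (1 / 8 ^ k)) := by
          gcongr
          exact pow8 hN k
      _ = 2 * ‖z‖ ^ N * (1 / 2) ^ k := by rw [half_pow]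

theorem UU_harm {N : ℕ} (hN : 3 ≤ N) : HarmonicOnNhd (UU N) (DD N) := by
  intro z0 hz0
  obtain ⟨δ, hδ, hd⟩ := delta_ex (by omega : 1 ≤ N) hz0
  set t0 := z0 ^ N with ht0
  have hWm : ∀ k : ℕ, AEMeasurable (fun x => (2 ^ k * ps x) ^ N) mu1 :=
    fun k => (ps_aem.const_mul (2 ^ k)).pow_const N
  have hb : ∀ k : ℕ, (1 : ℝ) ≤ 8 ^ k := fun k => one_le_pow₀ (by norm_num)
  have hcond : ∀ k : ℕ, ∀ᵐ x ∂mu1, (8 : ℝ) ^ k ≤ (2 ^ k * ps x) ^ N ∧
      δ * (2 ^ k * ps x) ^ N ≤ ‖(((2 ^ k * ps x) ^ N : ℝ) : ℂ) - t0‖ := by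
    intro k
    filter_upwards [mem_ae] with x hx
    refine ⟨?_, hd k x hx⟩
    have hp1 := ps_ge hx.1
    calc (8 : ℝ) ^ k ≤ (2 ^ k) ^ N := pow8 hN k
      _ ≤ (2 ^ k * ps x) ^ N := by
          gcongr
          have : (0 : ℝ) < 2 ^ k := by positivity
          nlinarith
  set Λ : ℕ → ℂ → ℂ := fun k t =>
    ∫ x, Complex.log (1 - (t - t0) / ((((2 ^ k * ps x) ^ N : ℝ) : ℂ) - t0)) ∂mu1 with hΛ
  have hloc := fun k => pot_local (hWm k) hδ (hb k) (hcond k)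
  have hGG : ∀ (k : ℕ) (z : ℂ), GG N (z / 2 ^ k) =
      ∫ x, Real.log ‖1 - z ^ N / (((2 ^ k * ps x) ^ N : ℝ) : ℂ)‖ ∂mu1 := by
    intro k z
    unfold GG
    congr 1
    funext x
    congr 3
    push_cast
    rw [div_div, div_pow]
  -- the holomorphic function
  set Φ : ℂ → ℂ := fun t => ∑' k : ℕ, (4 : ℂ) ^ k * Λ k t with hΦ
  have hsumb : ∀ (k : ℕ) (t : ℂ), t ∈ ball t0 (δ / 2) →
      ‖(4 : ℂ) ^ k * Λ k t‖ ≤ (1 / 2 : ℝ) ^ k := by
    intro k t ht
    rw [norm_mul, norm_pow, ← half_pow]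
    have h4 : ‖(4 : ℂ)‖ = 4 := by norm_num
    rw [h4]
    gcongr
    exact (hloc k).2.1 t ht
  have hΦd : DifferentiableOn ℂ Φ (ball t0 (δ / 2)) := by
    apply differentiableOn_tsum_of_summable_norm
      (summable_geometric_of_lt_one (by norm_num : (0 : ℝ) ≤ 1 / 2) (by norm_num)) _ isOpen_ball
      hsumb
    intro k
    exact ((hloc k).1).const_mul _
  have hpow : ContinuousAt (fun z : ℂ => z ^ N) z0 := by fun_prop
  have hnear : ∀ᶠ z in 𝓝 z0, z ^ N ∈ ball t0 (δ / 2) :=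
    hpow (ball_mem_nhds _ (by positivity))
  have heq : (fun z => UU N z0 + (Φ (z ^ N)).re) =ᶠ[𝓝 z0] UU N := by
    filter_upwards [hnear] with z hz
    have hsL : Summable fun k : ℕ => (4 : ℂ) ^ k * Λ k (z ^ N) :=
      Summable.of_norm_bounded (summable_geometric_of_lt_one (by norm_num : (0 : ℝ) ≤ 1 / 2)
        (by norm_num)) (fun k => hsumb k _ hz)
    have hre : (Φ (z ^ N)).re = ∑' k : ℕ, 4 ^ k * (Λ k (z ^ N)).re := by
      have h1 : (Φ (z ^ N)).re = ∑' k : ℕ, ((4 : ℂ) ^ k * Λ k (z ^ N)).re := Complex.re_tsum hsL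
      rw [h1]
      congr 1
      funext k
      have e : (4 : ℂ) ^ k = ((4 ^ k : ℝ) : ℂ) := by push_cast; rfl
      rw [e, Complex.re_ofReal_mul]
    have hsre : Summable fun k : ℕ => 4 ^ k * (Λ k (z ^ N)).re := by
      have h1 := Complex.reCLM.summable hsL
      refine h1.congr fun k => ?_
      have e : (4 : ℂ) ^ k = ((4 ^ k : ℝ) : ℂ) := by push_cast; rfl
      simp only [Complex.reCLM_apply]
      rw [e, Complex.re_ofReal_mul]
    rw [hre]
    unfold UU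
    rw [← (UU_summable hN z0).tsum_add hsre]
    congr 1
    funext k
    rw [hGG k z, hGG k z0, (hloc k).2.2 (z ^ N) hz, mul_add]
  apply (harmonicAt_congr_nhds heq).mp
  apply HarmonicAt.add (harmonicAt_const _)
  have han : AnalyticAt ℂ (fun z => Φ (z ^ N)) z0 := by
    have h1 : AnalyticAt ℂ Φ (z0 ^ N) :=
      hΦd.analyticAt (isOpen_ball.mem_nhds (mem_ball_self (by positivity)))
    exact h1.comp (f := fun z : ℂ => z ^ N) (by fun_prop)
  exact han.harmonicAt_re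

/-- The tail of the potential. -/
theorem UU_tail {N : ℕ} (hN : 3 ≤ N) (m : ℕ) {z : ℂ} (hz : ‖z‖ ≤ 2 ^ (m + 1)) :
    -(8 * 4 ^ m) ≤ ∑' k : ℕ, 4 ^ (k + (m + 2)) * GG N (z / 2 ^ (k + (m + 2))) := by
  have hs := (summable_nat_add_iff (m + 2)).mpr (UU_summable hN z)
  have hg : HasSum (fun k : ℕ => -(8 * 4 ^ m) * (1 / 2 * (1 / 2 : ℝ) ^ k)) (-(8 * 4 ^ m) * 1) := by
    apply HasSum.mul_left
    have h1 := (hasSum_geometric_of_lt_one (by norm_num : (0 : ℝ) ≤ 1 / 2) (by norm_num)).mul_left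
      (1 / 2 : ℝ)
    have e : (1 / 2 : ℝ) * (1 - 1 / 2)⁻¹ = 1 := by norm_num
    rw [e] at h1
    exact h1
  rw [mul_one] at hg
  rw [← hg.tsum_eq]
  apply hg.summable.tsum_le_tsum _ hs
  intro k
  have h2k : (0 : ℝ) < 2 ^ (k + (m + 2)) := by positivity
  have h1 : ‖z / 2 ^ (k + (m + 2))‖ = ‖z‖ / 2 ^ (k + (m + 2)) := by
    rw [norm_div, norm_pow]; norm_num
  have h2 : ‖z‖ / 2 ^ (k + (m + 2)) ≤ 1 / 2 ^ (k + 1) := by
    rw [div_le_div_iff₀ h2k (by positivity), one_mul]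
    calc ‖z‖ * 2 ^ (k + 1) ≤ 2 ^ (m + 1) * 2 ^ (k + 1) := by gcongr
      _ = 2 ^ (k + (m + 2)) := by rw [← pow_add]; congr 1; ring
  have h3 : (1 : ℝ) / 2 ^ (k + 1) ≤ 1 / 2 := by
    rw [div_le_div_iff₀ (by positivity) (by norm_num), one_mul, one_mul]
    calc (2 : ℝ) = 2 ^ 1 := (pow_one _).symm
      _ ≤ 2 ^ (k + 1) := pow_le_pow_right₀ (by norm_num) (by omega)
  have h4 := GG_small (by omega : 1 ≤ N) (s := z / 2 ^ (k + (m + 2))) (by rw [h1]; linarith)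
  have h5 := neg_abs_le (GG N (z / 2 ^ (k + (m + 2))))
  have h6 : ‖z / 2 ^ (k + (m + 2))‖ ^ N ≤ 1 / 8 ^ (k + 1) := by
    rw [h1]
    calc (‖z‖ / 2 ^ (k + (m + 2))) ^ N ≤ (1 / 2 ^ (k + 1)) ^ N := by gcongr
      _ = 1 / (2 ^ (k + 1)) ^ N := by rw [div_pow, one_pow]
      _ ≤ 1 / 8 ^ (k + 1) := by gcongr; exact pow8 hN (k + 1)
  have h7 : -(2 * (1 / 8 ^ (k + 1))) ≤ GG N (z / 2 ^ (k + (m + 2))) := by linarith
  have h8 : (4 : ℝ) ^ (k + (m + 2)) * (-(2 * (1 / 8 ^ (k + 1)))) =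
      -(8 * 4 ^ m) * (1 / 2 * (1 / 2) ^ k) := by
    have e1 := half_pow (k + 1)
    have e2 : (4 : ℝ) ^ (k + (m + 2)) = 4 ^ (k + 1) * (4 ^ m * 4) := by
      rw [← pow_succ, ← pow_add]; congr 1; ring
    rw [e2]
    calc (4 : ℝ) ^ (k + 1) * (4 ^ m * 4) * (-(2 * (1 / 8 ^ (k + 1))))
        = -(8 * 4 ^ m) * (4 ^ (k + 1) * (1 / 8 ^ (k + 1))) := by ring
      _ = -(8 * 4 ^ m) * ((1 / 2) ^ (k + 1)) := by rw [e1]
      _ = _ := by rw [pow_succ]; ring
  rw [← h8]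
  gcongr

/-- The majorant. -/
theorem UU_big {N : ℕ} (hN : 1424 ≤ N) (z : ℂ) : ‖z‖ ^ 2 ≤ 4 * UU N z + 356 := by
  have hN3 : 3 ≤ N := by omega
  have hNr : (1424 : ℝ) ≤ N := by exact_mod_cast hN
  have hsum := UU_summable hN3 z
  have hnk : ∀ k : ℕ, ‖z / 2 ^ k‖ = ‖z‖ / 2 ^ k := by
    intro k; rw [norm_div, norm_pow]; norm_num
  rcases le_or_gt ‖z‖ 2 with h | h
  · -- small
    have h1 := UU_tail hN3 0 (z := z) (by simpa using h)
    have h2 : UU N z = ∑ k ∈ Finset.range 2, 4 ^ k * GG N (z / 2 ^ k) +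
        ∑' k : ℕ, 4 ^ (k + (0 + 2)) * GG N (z / 2 ^ (k + (0 + 2))) :=
      (hsum.sum_add_tsum_nat_add 2).symm
    rw [Finset.sum_range_succ, Finset.sum_range_one] at h2
    have g0 := GG_ge (by omega : 1 ≤ N) (z / 2 ^ 0)
    have g1 := GG_ge (by omega : 1 ≤ N) (z / 2 ^ 1)
    norm_num at h2 h1 g0 g1
    have h3 : -88 ≤ UU N z := by linarith
    have := norm_nonneg z
    nlinarith
  · -- large
    obtain ⟨m, hm1, hm2, hm3⟩ : ∃ m : ℕ, 1 ≤ m ∧ (2 : ℝ) ^ m ≤ ‖z‖ ∧ ‖z‖ ≤ 2 ^ (m + 1) := by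
      obtain ⟨m, h1, h2⟩ := exists_nat_pow_near (by linarith : 1 ≤ ‖z‖) (by norm_num : (1 : ℝ) < 2)
      refine ⟨m, ?_, h1, h2.le⟩
      by_contra h0
      have : m = 0 := by omega
      subst this
      norm_num at h2
      linarith
    obtain ⟨l, rfl⟩ : ∃ l, m = l + 1 := ⟨m - 1, by omega⟩
    have h1 := UU_tail hN3 (l + 1) hm3
    have h2 : UU N z = ∑ k ∈ Finset.range (l + 1 + 2), 4 ^ k * GG N (z / 2 ^ k) +
        ∑' k : ℕ, 4 ^ (k + (l + 1 + 2)) * GG N (z / 2 ^ (k + (l + 1 + 2))) :=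
      (hsum.sum_add_tsum_nat_add (l + 1 + 2)).symm
    rw [Finset.sum_range_succ, Finset.sum_range_succ, Finset.sum_range_succ] at h2
    have h3 : 0 ≤ ∑ k ∈ Finset.range l, 4 ^ k * GG N (z / 2 ^ k) := by
      apply Finset.sum_nonneg
      intro k hk
      rw [Finset.mem_range] at hk
      have h4 : 2 ≤ ‖z / 2 ^ k‖ := by
        rw [hnk, le_div_iff₀ (by positivity)]
        calc (2 : ℝ) * 2 ^ k = 2 ^ (k + 1) := by rw [pow_succ]; ring
          _ ≤ 2 ^ (l + 1) := pow_le_pow_right₀ (by norm_num) (by omega)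
          _ ≤ ‖z‖ := hm2
      have h5 := GG_large (by omega : 2 ≤ N) h4
      have h6 : (0 : ℝ) ≤ (N : ℝ) / 4 := by positivity
      have : 0 ≤ GG N (z / 2 ^ k) := by linarith
      positivity
    have h4 : (N : ℝ) / 4 ≤ GG N (z / 2 ^ l) := by
      apply GG_large (by omega)
      rw [hnk, le_div_iff₀ (by positivity)]
      calc (2 : ℝ) * 2 ^ l = 2 ^ (l + 1) := by rw [pow_succ]; ring
        _ ≤ ‖z‖ := hm2
    have g0 := GG_ge (by omega : 1 ≤ N) (z / 2 ^ (l + 1))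
    have g1 := GG_ge (by omega : 1 ≤ N) (z / 2 ^ (l + 1 + 1))
    have h4l : (0 : ℝ) < 4 ^ l := by positivity
    have e1 : (4 : ℝ) ^ (l + 1) = 4 * 4 ^ l := by rw [pow_succ]; ring
    have e2 : (4 : ℝ) ^ (l + 1 + 1) = 16 * 4 ^ l := by rw [pow_succ, pow_succ]; ring
    rw [e1] at h1
    rw [e1, e2] at h2
    have m1 : 4 ^ l * ((N : ℝ) / 4) ≤ 4 ^ l * GG N (z / 2 ^ l) := by gcongr
    have m2 : 4 * 4 ^ l * (-16) ≤ 4 * 4 ^ l * GG N (z / 2 ^ (l + 1)) := by gcongr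
    have m3 : 16 * 4 ^ l * (-16) ≤ 16 * 4 ^ l * GG N (z / 2 ^ (l + 1 + 1)) := by gcongr
    have h5 : 4 * 4 ^ l ≤ UU N z := by
      rw [h2]
      have m4 : 4 ^ l * (1424 / 4 : ℝ) ≤ 4 ^ l * ((N : ℝ) / 4) := by gcongr
      linarith
    have h6 : ‖z‖ ^ 2 ≤ 16 * 4 ^ l := by
      calc ‖z‖ ^ 2 ≤ (2 ^ (l + 1 + 1)) ^ 2 := by gcongr
        _ = 16 * 4 ^ l := by
            rw [← pow_mul, mul_comm, pow_mul]
            norm_num
            rw [pow_succ, pow_succ]; ring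
    linarith

end Pool.Agent.R860.HD
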