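import Pool.Agent.R860.HD.Domain

/-!
# The potential
-/

set_option autoImplicit false

namespace Pool.Agent.R860.HD

open Set Filter Topology Complex InnerProductSpace Metric MeasureTheory

/-- Lebesgue measure on `[0, 1)`. -/
noncomputable abbrev mu1 : Measure ℝ := volume.restrict (Ico (0 : ℝ) 1)

instance : IsProbabilityMeasure mu1 := ⟨by simp⟩

theorem mem_ae : ∀ᵐ x ∂mu1, x ∈ Ico (0 : ℝ) 1 := ae_restrict_mem measurableSet_Ico

theorem ps_aem : AEMeasurable ps mu1 :=
  aemeasurable_restrict_of_monotoneOn measurableSet_Ico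
    (fun _ hx _ hy hxy => ps_mono hx.1 hxy hy.2)

/-- The potential of one copy of the Cantor set. -/
noncomputable def GG (N : ℕ) (s : ℂ) : ℝ := ∫ x, Real.log ‖1 - (s / (ps x : ℂ)) ^ N‖ ∂mu1

/-- The full potential. -/
noncomputable def UU (N : ℕ) (z : ℂ) : ℝ := ∑' k : ℕ, 4 ^ k * GG N (z / 2 ^ k)

theorem nearest (σ : ℝ) : ∃ x0 ∈ Icc (0 : ℝ) 1, ∀ x ∈ Ico (0 : ℝ) 1, x ≠ x0 →
    (x - x0) ^ 4 / 16 ≤ |ps x - σ| := by
  set S : Set ℝ := {x | x = 0 ∨ (x ∈ Ico (0 : ℝ) 1 ∧ ps x ≤ σ)} with hS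
  have h0S : (0 : ℝ) ∈ S := Or.inl rfl
  have hne : S.Nonempty := ⟨0, h0S⟩
  have hub : ∀ x ∈ S, x ≤ 1 := by
    rintro x (rfl | ⟨hx, -⟩)
    · norm_num
    · exact hx.2.le
  have hbdd : BddAbove S := ⟨1, hub⟩
  set x0 := sSup S with hx0
  have hx00 : 0 ≤ x0 := le_csSup hbdd h0S
  have hx01 : x0 ≤ 1 := csSup_le hne hub
  refine ⟨x0, ⟨hx00, hx01⟩, ?_⟩
  intro x hx hxne
  rcases lt_or_gt_of_ne hxne with h | h
  · obtain ⟨u, -, hu, huS⟩ := exists_seq_tendsto_sSup hne hbdd
    have h1 : ∀ᶠ n in atTop, (x - u n) ^ 4 / 16 ≤ σ - ps x := by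
      filter_upwards [hu.eventually (lt_mem_nhds h)] with n hn
      rcases huS n with h2 | ⟨h2, h3⟩
      · rw [h2] at hn; linarith [hx.1]
      · have h4 := ps_growth hx.1 hn h2.2
        have e : (x - u n) ^ 4 = (u n - x) ^ 4 := by ring
        rw [e]; linarith
    have h2 : Tendsto (fun n => (x - u n) ^ 4 / 16) atTop (𝓝 ((x - x0) ^ 4 / 16)) :=
      ((tendsto_const_nhds.sub hu).pow 4).div_const 16
    have h3 := le_of_tendsto h2 h1
    rw [abs_sub_comm]
    exact h3.trans (le_abs_self _)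
  · have h1 : ∀ᶠ y in 𝓝[>] x0, (x - y) ^ 4 / 16 ≤ ps x - σ := by
      filter_upwards [Ioo_mem_nhdsGT h] with y hy
      have hy0 : 0 ≤ y := by linarith [hy.1]
      have hyS : y ∉ S := fun h2 => by
        have := le_csSup hbdd h2
        linarith [hy.1]
      have h2 : σ < ps y := by
        by_contra h3
        push Not at h3
        exact hyS (Or.inr ⟨⟨hy0, by linarith [hy.2, hx.2]⟩, h3⟩)
      have h3 := ps_growth hy0 hy.2 hx.2
      linarith
    have h2 : Tendsto (fun y => (x - y) ^ 4 / 16) (𝓝[>] x0) (𝓝 ((x - x0) ^ 4 / 16)) := by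
      have : Continuous fun y : ℝ => (x - y) ^ 4 / 16 := by fun_prop
      exact (this.tendsto x0).mono_left nhdsWithin_le_nhds
    have h3 := le_of_tendsto h2 h1
    exact h3.trans (le_abs_self _)

theorem log_int (x0 : ℝ) (h0 : x0 ∈ Icc (0 : ℝ) 1) :
    Integrable (fun x => 4 * Real.log (x - x0) - 4) mu1 ∧
      -16 ≤ ∫ x, (4 * Real.log (x - x0) - 4) ∂mu1 := by
  have hi : IntervalIntegrable (fun x => Real.log (x - x0)) volume 0 1 := by
    have h1 : IntervalIntegrable Real.log volume (0 - x0) (1 - x0) :=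
      intervalIntegral.intervalIntegrable_log'
    have h2 := h1.comp_sub_right x0
    simpa using h2
  have hi2 : IntervalIntegrable (fun x => 4 * Real.log (x - x0) - 4) volume 0 1 :=
    (hi.const_mul 4).sub intervalIntegrable_const
  constructor
  · have h3 := (intervalIntegrable_iff_integrableOn_Ico_of_le zero_le_one).mp hi2
    exact h3
  · have e : ∫ x, (4 * Real.log (x - x0) - 4) ∂mu1 =
        ∫ x in (0 : ℝ)..1, (4 * Real.log (x - x0) - 4) := by
      rw [intervalIntegral.integral_of_le zero_le_one, ← integral_Ico_eq_integral_Ioc]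
    rw [e, intervalIntegral.integral_sub (hi.const_mul 4) intervalIntegrable_const,
      intervalIntegral.integral_const_mul, intervalIntegral.integral_comp_sub_right Real.log x0,
      integral_log]
    simp only [intervalIntegral.integral_const, sub_zero, smul_eq_mul, zero_sub, Real.log_neg_eq_log]
    have hy : ∀ y : ℝ, 0 ≤ y → -1 ≤ y * Real.log y := by
      intro y hy
      rcases hy.eq_or_lt with h | h
      · rw [← h]; simp
      · have h1 := Real.one_sub_inv_le_log_of_pos h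
        have h2 : y * (1 - y⁻¹) = y - 1 := by field_simp
        have h3 : y * (1 - y⁻¹) ≤ y * Real.log y := mul_le_mul_of_nonneg_left h1 h.le
        linarith
    have h1 := hy x0 h0.1
    have h2 := hy (1 - x0) (by linarith [h0.2])
    linarith

theorem pow_dist {a : ℝ} (ha : 0 ≤ a) {N : ℕ} (hN : 1 ≤ N) : |1 - a| ≤ |1 - a ^ N| := by
  rcases le_total a 1 with h | h
  · have h1 : a ^ N ≤ a := by
      calc a ^ N ≤ a ^ 1 := pow_le_pow_of_le_one ha h hN
        _ = a := pow_one a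
    rw [abs_of_nonneg (by linarith), abs_of_nonneg (by linarith)]
    linarith
  · have h1 : a ≤ a ^ N := by
      calc a = a ^ 1 := (pow_one a).symm
        _ ≤ a ^ N := pow_le_pow_right₀ h hN
    rw [abs_of_nonpos (by linarith), abs_of_nonpos (by linarith)]
    linarith

/-- The potential is bounded below. -/
theorem GG_ge {N : ℕ} (hN : 1 ≤ N) (s : ℂ) : -16 ≤ GG N s := by
  unfold GG
  by_cases hint : Integrable (fun x => Real.log ‖1 - (s / (ps x : ℂ)) ^ N‖) mu1
  swap
  · rw [integral_undef hint]; norm_num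
  set t := s ^ N with ht
  set σ : ℝ := (max t.re 0) ^ ((N : ℝ)⁻¹) with hσ
  have hσ0 : 0 ≤ σ := by positivity
  have hσN : σ ^ N = max t.re 0 := Real.rpow_inv_natCast_pow (le_max_right _ _) (by omega)
  obtain ⟨x0, hx0, hnear⟩ := nearest σ
  obtain ⟨hi, hlow⟩ := log_int x0 hx0
  refine hlow.trans (integral_mono_ae hi hint ?_)
  have hne : ∀ᵐ x ∂mu1, x ≠ x0 :=
    ae_restrict_of_ae (compl_mem_ae_iff.mpr (measure_singleton x0))
  filter_upwards [mem_ae, hne] with x hx hxne
  have hp1 := ps_ge hx.1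
  have hp2 := ps_le hx.1 hx.2
  have hd1 : |x - x0| ≤ 1 := by
    rw [abs_le]; constructor <;> linarith [hx.1, hx.2, hx0.1, hx0.2]
  have hd0 : 0 < |x - x0| := abs_pos.mpr (sub_ne_zero.mpr hxne)
  have hlog0 : Real.log (x - x0) ≤ 0 := by
    rw [← Real.log_abs]
    exact Real.log_nonpos (abs_nonneg _) hd1
  have hW : (s / (ps x : ℂ)) ^ N = t / ((ps x ^ N : ℝ) : ℂ) := by
    rw [div_pow, ht]; push_cast; rfl
  have hpN : 0 < ps x ^ N := by positivity
  have hre : |1 - t.re / ps x ^ N| ≤ ‖1 - (s / (ps x : ℂ)) ^ N‖ := by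
    have h1 := Complex.abs_re_le_norm (1 - (s / (ps x : ℂ)) ^ N)
    rw [hW, Complex.sub_re, Complex.one_re, Complex.div_ofReal_re] at h1
    rw [hW]; exact h1
  rcases le_total t.re 0 with htr | htr
  · have h1 : 1 ≤ ‖1 - (s / (ps x : ℂ)) ^ N‖ := by
      refine le_trans ?_ hre
      have : t.re / ps x ^ N ≤ 0 := div_nonpos_of_nonpos_of_nonneg htr hpN.le
      rw [abs_of_nonneg (by linarith)]
      linarith
    have := Real.log_nonneg h1
    linarith
  · rw [max_eq_left htr] at hσN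
    have h1 : 7 / 128 * (x - x0) ^ 4 ≤ ‖1 - (s / (ps x : ℂ)) ^ N‖ := by
      refine le_trans ?_ hre
      have e : t.re / ps x ^ N = (σ / ps x) ^ N := by rw [div_pow, hσN]
      rw [e]
      refine le_trans ?_ (pow_dist (by positivity) hN)
      have e2 : |1 - σ / ps x| = |ps x - σ| / ps x := by
        rw [← abs_of_pos (by linarith : 0 < ps x), ← abs_div, abs_of_pos (by linarith : 0 < ps x)]
        congr 1
        field_simp
      rw [e2, le_div_iff₀ (by linarith)]
      have h2 := hnear x hx hxne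
      have h3 : 0 ≤ (x - x0) ^ 4 := by positivity
      nlinarith
    have h4 : 0 < (x - x0) ^ 4 := by
      have e : (x - x0) ^ 4 = |x - x0| ^ 4 := by
        rw [← abs_pow, abs_of_nonneg (by positivity)]
      rw [e]; positivity
    have h5 := Real.log_le_log (by positivity) h1
    rw [Real.log_mul (by norm_num) h4.ne', Real.log_pow] at h5
    have h6 : -4 ≤ Real.log (7 / 128) := by
      rw [Real.le_log_iff_exp_le (by norm_num)]
      have h7 : Real.exp (-4) = (Real.exp 1 ^ 4)⁻¹ := by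
        rw [← Real.exp_nat_mul, ← Real.exp_neg]; norm_num
      rw [h7]
      have h8 := Real.exp_one_gt_d9
      have h9 : (2.7 : ℝ) ^ 4 ≤ Real.exp 1 ^ 4 := by
        gcongr
        linarith
      rw [inv_le_comm₀ (by positivity) (by norm_num)]
      norm_num at h9 ⊢
      linarith
    push_cast at h5
    linarith

/-- Small arguments. -/
theorem GG_small {N : ℕ} (hN : 1 ≤ N) {s : ℂ} (hs : ‖s‖ ≤ 1 / 2) : |GG N s| ≤ 2 * ‖s‖ ^ N := by
  unfold GG
  have h1 : ∀ᵐ x ∂mu1, ‖Real.log ‖1 - (s / (ps x : ℂ)) ^ N‖‖ ≤ 2 * ‖s‖ ^ N := by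
    filter_upwards [mem_ae] with x hx
    have hp1 := ps_ge hx.1
    have h2 : ‖(s / (ps x : ℂ)) ^ N‖ ≤ ‖s‖ ^ N := by
      rw [norm_pow, norm_div, Complex.norm_real, Real.norm_of_nonneg (by linarith)]
      gcongr
      exact div_le_self (norm_nonneg _) hp1
    have h3 : ‖s‖ ^ N ≤ 1 / 2 := by
      calc ‖s‖ ^ N ≤ ‖s‖ ^ 1 := pow_le_pow_of_le_one (norm_nonneg _) (by linarith) hN
        _ ≤ 1 / 2 := by rw [pow_one]; exact hs
    have h4 := Complex.norm_log_one_add_half_le_self (z := -((s / (ps x : ℂ)) ^ N))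
      (by rw [norm_neg]; linarith)
    rw [norm_neg, ← sub_eq_add_neg] at h4
    have h5 : |(Complex.log (1 - (s / (ps x : ℂ)) ^ N)).re| ≤
        ‖Complex.log (1 - (s / (ps x : ℂ)) ^ N)‖ := Complex.abs_re_le_norm _
    rw [Complex.log_re] at h5
    rw [Real.norm_eq_abs]
    have := norm_nonneg ((s / (ps x : ℂ)) ^ N)
    linarith
  have h2 := norm_integral_le_of_norm_le_const h1
  rw [Real.norm_eq_abs, probReal_univ, mul_one] at h2
  exact h2

theorem pow_aux {N : ℕ} (hN : 2 ≤ N) : 1 + (1.3 : ℝ) ^ N ≤ (7 / 4) ^ N := by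
  induction N, hN using Nat.le_induction with
  | base => norm_num
  | succ n _ ih =>
    have h1 : (0 : ℝ) < 1.3 ^ n := by positivity
    rw [pow_succ, pow_succ]
    nlinarith

/-- Large arguments. -/
theorem GG_large {N : ℕ} (hN : 2 ≤ N) {s : ℂ} (hs : 2 ≤ ‖s‖) : (N : ℝ) / 4 ≤ GG N s := by
  unfold GG
  have hb : ∀ᵐ x ∂mu1, (N : ℝ) / 4 ≤ Real.log ‖1 - (s / (ps x : ℂ)) ^ N‖ ∧
      Real.log ‖1 - (s / (ps x : ℂ)) ^ N‖ ≤ 1 + ‖s‖ ^ N := by
    filter_upwards [mem_ae] with x hx
    have hp1 := ps_ge hx.1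
    have hp2 := ps_le hx.1 hx.2
    have hn : ‖(s / (ps x : ℂ)) ^ N‖ = (‖s‖ / ps x) ^ N := by
      rw [norm_pow, norm_div, Complex.norm_real, Real.norm_of_nonneg (by linarith)]
    have h1 : 7 / 4 ≤ ‖s‖ / ps x := by
      rw [le_div_iff₀ (by linarith)]
      linarith
    have h2 : (7 / 4 : ℝ) ^ N ≤ ‖(s / (ps x : ℂ)) ^ N‖ := by
      rw [hn]; gcongr
    have h3 : ‖(s / (ps x : ℂ)) ^ N‖ - 1 ≤ ‖1 - (s / (ps x : ℂ)) ^ N‖ := by
      have := norm_sub_norm_le ((s / (ps x : ℂ)) ^ N) 1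
      rw [norm_one, norm_sub_rev] at this
      exact this
    have h4 := pow_aux hN
    have h5 : Real.exp ((N : ℝ) / 4) ≤ 1.3 ^ N := by
      have e : Real.exp ((N : ℝ) / 4) = Real.exp (1 / 4) ^ N := by
        rw [← Real.exp_nat_mul]; congr 1; ring
      rw [e]
      have h6 : Real.exp (1 / 4) ≤ 1.3 := by
        have h7 : Real.exp (1 / 4) ^ 4 ≤ (1.3 : ℝ) ^ 4 := by
          rw [← Real.exp_nat_mul]
          have h8 := Real.exp_one_lt_d9
          norm_num
          norm_num at h8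
          linarith
        exact (pow_le_pow_iff_left₀ (Real.exp_pos _).le (by norm_num) (by norm_num)).mp h7
      gcongr
    constructor
    · rw [Real.le_log_iff_exp_le (by linarith [Real.exp_pos ((N : ℝ) / 4)])]
      linarith
    · have h6 : ‖1 - (s / (ps x : ℂ)) ^ N‖ ≤ 1 + ‖s‖ ^ N := by
        refine (norm_sub_le _ _).trans ?_
        rw [norm_one, hn]
        gcongr
        exact div_le_self (norm_nonneg _) hp1
      have h7 := Real.log_le_self (norm_nonneg (1 - (s / (ps x : ℂ)) ^ N))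
      linarith
  have hmeas : AEStronglyMeasurable (fun x => Real.log ‖1 - (s / (ps x : ℂ)) ^ N‖) mu1 := by
    have h1 : AEMeasurable (fun x => (ps x : ℂ)) mu1 :=
      Complex.measurable_ofReal.comp_aemeasurable ps_aem
    have h2 : AEMeasurable (fun x => 1 - (s / (ps x : ℂ)) ^ N) mu1 :=
      ((aemeasurable_const.div h1).pow_const N).const_sub 1
    exact (Real.measurable_log.comp_aemeasurable h2.norm).aestronglyMeasurable
  have hint : Integrable (fun x => Real.log ‖1 - (s / (ps x : ℂ)) ^ N‖) mu1 := by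
    apply Integrable.of_bound hmeas (1 + ‖s‖ ^ N)
    filter_upwards [hb] with x hx
    rw [Real.norm_eq_abs, abs_of_nonneg]
    · exact hx.2
    · have : (0 : ℝ) ≤ (N : ℝ) / 4 := by positivity
      linarith [hx.1]
  have h1 := integral_mono_ae (integrable_const ((N : ℝ) / 4)) hint (hb.mono fun x hx => hx.1)
  rw [integral_const, probReal_univ, one_smul] at h1
  exact h1

end Pool.Agent.R860.HD
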