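import Pool.Agent.R860.HD.Cantor

/-!
# Integrals over rectangles cut into vertical strips
-/

set_option autoImplicit false

namespace Pool.Agent.R860.HD

open Set Filter Topology Complex MeasureTheory

/-- The integral over the boundary of a rectangle. -/
noncomputable def RI (g : ℂ → ℂ) (s t p q : ℝ) : ℂ :=
  (∫ x in s..t, g (x + p * I)) - (∫ x in s..t, g (x + q * I)) +
    I * (∫ y in p..q, g (t + y * I)) - I * (∫ y in p..q, g (s + y * I))

theorem RI_zero (g : ℂ → ℂ) {s t p q : ℝ} (hst : s ≤ t) (hpq : p ≤ q)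
    (h : ∀ x ∈ Icc s t, ∀ y ∈ Icc p q, DifferentiableAt ℂ g (x + y * I)) :
    RI g s t p q = 0 := by
  have h1 := Complex.integral_boundary_rect_eq_zero_of_differentiableOn g ⟨s, p⟩ ⟨t, q⟩ (by
    rintro z ⟨hz1, hz2⟩
    simp only [Set.mem_preimage, uIcc_of_le hst, uIcc_of_le hpq] at hz1 hz2
    have := h z.re hz1 z.im hz2
    rw [Complex.re_add_im] at this
    exact this.differentiableWithinAt)
  simp only [smul_eq_mul] at h1
  exact h1

theorem RI_vert (g : ℂ → ℂ) {s t p q r : ℝ}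
    (h1 : IntervalIntegrable (fun y : ℝ => g (t + y * I)) volume p q)
    (h2 : IntervalIntegrable (fun y : ℝ => g (t + y * I)) volume q r)
    (h3 : IntervalIntegrable (fun y : ℝ => g (s + y * I)) volume p q)
    (h4 : IntervalIntegrable (fun y : ℝ => g (s + y * I)) volume q r) :
    RI g s t p r = RI g s t p q + RI g s t q r := by
  unfold RI
  rw [← intervalIntegral.integral_add_adjacent_intervals h1 h2,
    ← intervalIntegral.integral_add_adjacent_intervals h3 h4]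
  ring

theorem RI_horiz (g : ℂ → ℂ) {s t u p q : ℝ}
    (h1 : IntervalIntegrable (fun x : ℝ => g (x + p * I)) volume s t)
    (h2 : IntervalIntegrable (fun x : ℝ => g (x + p * I)) volume t u)
    (h3 : IntervalIntegrable (fun x : ℝ => g (x + q * I)) volume s t)
    (h4 : IntervalIntegrable (fun x : ℝ => g (x + q * I)) volume t u) :
    RI g s u p q = RI g s t p q + RI g t u p q := by
  unfold RI
  rw [← intervalIntegral.integral_add_adjacent_intervals h1 h2,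
    ← intervalIntegral.integral_add_adjacent_intervals h3 h4]
  ring

/-- Integral of a function bounded by an inverse square root. -/
theorem half_sing (φ : ℝ → ℂ) {C ℓ : ℝ} (hℓ : 0 ≤ ℓ)
    (hb : ∀ y, 0 < y → y ≤ ℓ → ‖φ y‖ ≤ C / √y) :
    ‖∫ y in (0 : ℝ)..ℓ, φ y‖ ≤ 2 * C * √ℓ := by
  have h1 : ‖∫ y in (0 : ℝ)..ℓ, φ y‖ ≤ ∫ y in (0 : ℝ)..ℓ, C * y ^ (-(1 / 2) : ℝ) := by
    apply intervalIntegral.norm_integral_le_of_norm_le hℓ
    · apply Filter.Eventually.of_forall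
      intro y hy
      refine (hb y hy.1 hy.2).trans (le_of_eq ?_)
      rw [Real.rpow_neg hy.1.le, ← Real.sqrt_eq_rpow, div_eq_mul_inv]
    · exact (intervalIntegral.intervalIntegrable_rpow' (by norm_num)).const_mul C
  refine h1.trans (le_of_eq ?_)
  rw [intervalIntegral.integral_const_mul, integral_rpow (Or.inl (by norm_num))]
  norm_num
  rw [← Real.sqrt_eq_rpow]
  ring

theorem full_sing (φ : ℝ → ℂ) {C ℓ : ℝ} (hℓ : 0 ≤ ℓ)
    (hc : ContinuousOn φ (Icc (-ℓ) ℓ))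
    (hb : ∀ y, y ≠ 0 → |y| ≤ ℓ → ‖φ y‖ ≤ C / √|y|) :
    ‖∫ y in (-ℓ)..ℓ, φ y‖ ≤ 4 * C * √ℓ := by
  have hi1 : IntervalIntegrable φ volume (-ℓ) 0 := by
    apply ContinuousOn.intervalIntegrable
    rw [uIcc_of_le (by linarith)]
    exact hc.mono (Icc_subset_Icc le_rfl hℓ)
  have hi2 : IntervalIntegrable φ volume 0 ℓ := by
    apply ContinuousOn.intervalIntegrable
    rw [uIcc_of_le hℓ]
    exact hc.mono (Icc_subset_Icc (by linarith) le_rfl)
  rw [← intervalIntegral.integral_add_adjacent_intervals hi1 hi2]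
  have h1 : ∫ y in (-ℓ)..0, φ y = ∫ y in (0 : ℝ)..ℓ, φ (-y) := by
    rw [intervalIntegral.integral_comp_neg]
    simp
  rw [h1]
  have h2 := half_sing (fun y => φ (-y)) (C := C) hℓ (fun y hy hy' => by
    have := hb (-y) (by linarith) (by rw [abs_neg, abs_of_pos hy]; exact hy')
    rwa [abs_neg, abs_of_pos hy] at this)
  have h3 := half_sing φ (C := C) hℓ (fun y hy hy' => by
    have := hb y hy.ne' (by rw [abs_of_pos hy]; exact hy')
    rwa [abs_of_pos hy] at this)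
  calc _ ≤ _ := norm_add_le _ _
    _ ≤ 2 * C * √ℓ + 2 * C * √ℓ := add_le_add h2 h3
    _ = 4 * C * √ℓ := by ring

section
variable (g : ℂ → ℂ) {y0 C : ℝ} (hy0 : 0 < y0) (hC : 0 ≤ C)
  (hd : ∀ x ∈ Icc (7 / 8 : ℝ) (5 / 4), ∀ y : ℝ, |y| ≤ y0 → (y ≠ 0 ∨ x ∉ FF) →
    DifferentiableAt ℂ g (x + y * I))
  (hb : ∀ x ∈ Icc (7 / 8 : ℝ) (5 / 4), ∀ y : ℝ, y ≠ 0 → |y| ≤ y0 →
    ‖g (x + y * I)‖ ≤ C / √|y|)

theorem cont_vert {g : ℂ → ℂ} {x : ℝ} {S : Set ℝ}
    (h : ∀ y ∈ S, DifferentiableAt ℂ g (x + y * I)) :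
    ContinuousOn (fun y : ℝ => g (x + y * I)) S := by
  intro y hy
  have h1 : ContinuousAt (fun y : ℝ => ((x : ℂ) + y * I)) y := by fun_prop
  exact (ContinuousAt.comp (f := fun y : ℝ => ((x : ℂ) + y * I)) (g := g)
    (h y hy).continuousAt h1).continuousWithinAt

theorem cont_horiz {g : ℂ → ℂ} {y : ℝ} {S : Set ℝ}
    (h : ∀ x ∈ S, DifferentiableAt ℂ g (x + y * I)) :
    ContinuousOn (fun x : ℝ => g (x + y * I)) S := by
  intro x hx
  have h1 : ContinuousAt (fun x : ℝ => ((x : ℂ) + y * I)) x := by fun_prop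
  exact (ContinuousAt.comp (f := fun x : ℝ => ((x : ℂ) + y * I)) (g := g)
    (h x hx).continuousAt h1).continuousWithinAt

include hd in
theorem int_vert {x : ℝ} (hx : x ∈ Icc (7 / 8 : ℝ) (5 / 4)) (hxF : x ∉ FF) {p q : ℝ}
    (hp : |p| ≤ y0) (hq : |q| ≤ y0) :
    IntervalIntegrable (fun y : ℝ => g (x + y * I)) volume p q := by
  apply ContinuousOn.intervalIntegrable
  apply cont_vert
  intro y hy
  apply hd x hx y _ (Or.inr hxF)
  rw [abs_le] at hp hq ⊢
  rw [mem_uIcc] at hy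
  rcases hy with hy | hy <;> constructor <;> linarith [hy.1, hy.2]

include hd in
theorem int_horiz {s t p : ℝ} (hs : s ∈ Icc (7 / 8 : ℝ) (5 / 4))
    (ht : t ∈ Icc (7 / 8 : ℝ) (5 / 4)) (hp : |p| ≤ y0) (hp0 : p ≠ 0) :
    IntervalIntegrable (fun x : ℝ => g (x + p * I)) volume s t := by
  apply ContinuousOn.intervalIntegrable
  apply cont_horiz
  intro x hx
  apply hd x _ p hp (Or.inl hp0)
  rw [mem_uIcc] at hx
  rcases hx with hx | hx <;> constructor <;> linarith [hx.1, hx.2, hs.1, hs.2, ht.1, ht.2]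

include hy0 hd in
theorem strip_gap {s t : ℝ} (hs : s ∈ Icc (7 / 8 : ℝ) (5 / 4)) (ht : t ∈ Icc (7 / 8 : ℝ) (5 / 4))
    (hst : s ≤ t) (hF : ∀ x ∈ Icc s t, x ∉ FF) : RI g s t (-y0) y0 = 0 := by
  apply RI_zero g hst (by linarith)
  intro x hx y hy
  apply hd x ⟨hs.1.trans hx.1, hx.2.trans ht.2⟩ y _ (Or.inr (hF x hx))
  exact abs_le.mpr hy

include hC hd hb in
theorem strip_small {s t : ℝ} (hs : s ∈ Icc (7 / 8 : ℝ) (5 / 4))
    (ht : t ∈ Icc (7 / 8 : ℝ) (5 / 4)) (hst : s < t) (hsF : s ∉ FF) (htF : t ∉ FF)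
    (hl : t - s ≤ y0) : ‖RI g s t (-y0) y0‖ ≤ 10 * C * √(t - s) := by
  set ℓ := t - s with hℓ
  have hℓ0 : 0 < ℓ := by linarith
  have hsub : ∀ x ∈ Icc s t, x ∈ Icc (7 / 8 : ℝ) (5 / 4) :=
    fun x hx => ⟨hs.1.trans hx.1, hx.2.trans ht.2⟩
  have ay0 : |y0| ≤ y0 := by rw [abs_of_pos (by linarith)]
  have any0 : |(-y0)| ≤ y0 := by rw [abs_neg]; exact ay0
  have aℓ : |ℓ| ≤ y0 := by rw [abs_of_pos hℓ0]; exact hl
  have anℓ : |(-ℓ)| ≤ y0 := by rw [abs_neg]; exact aℓ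
  have e1 : RI g s t (-y0) y0 = RI g s t (-y0) (-ℓ) + RI g s t (-ℓ) y0 :=
    RI_vert g (int_vert g hd ht htF any0 anℓ) (int_vert g hd ht htF anℓ ay0)
      (int_vert g hd hs hsF any0 anℓ) (int_vert g hd hs hsF anℓ ay0)
  have e2 : RI g s t (-ℓ) y0 = RI g s t (-ℓ) ℓ + RI g s t ℓ y0 :=
    RI_vert g (int_vert g hd ht htF anℓ aℓ) (int_vert g hd ht htF aℓ ay0)
      (int_vert g hd hs hsF anℓ aℓ) (int_vert g hd hs hsF aℓ ay0)
  have z1 : RI g s t (-y0) (-ℓ) = 0 := by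
    apply RI_zero g hst.le (by linarith)
    intro x hx y hy
    apply hd x (hsub x hx) y _ (Or.inl (by linarith [hy.2]))
    rw [abs_le]; constructor <;> linarith [hy.1, hy.2]
  have z2 : RI g s t ℓ y0 = 0 := by
    apply RI_zero g hst.le hl
    intro x hx y hy
    apply hd x (hsub x hx) y _ (Or.inl (by linarith [hy.1]))
    rw [abs_le]; constructor <;> linarith [hy.1, hy.2]
  rw [e1, e2, z1, z2, zero_add, add_zero]
  have hsq : √ℓ * √ℓ = ℓ := Real.mul_self_sqrt hℓ0.le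
  have hsqp : 0 < √ℓ := Real.sqrt_pos.mpr hℓ0
  have hCl : C / √ℓ * ℓ = C * √ℓ := by
    rw [div_mul_eq_mul_div, div_eq_iff hsqp.ne']
    linear_combination -C * hsq
  have b1 : ‖∫ x in s..t, g (x + ((-ℓ : ℝ) : ℂ) * I)‖ ≤ C * √ℓ := by
    have := intervalIntegral.norm_integral_le_of_norm_le_const (a := s) (b := t)
      (f := fun x : ℝ => g (x + ((-ℓ : ℝ) : ℂ) * I)) (C := C / √ℓ) (by
        intro x hx
        rw [uIoc_of_le hst.le] at hx
        have := hb x (hsub x ⟨hx.1.le, hx.2⟩) (-ℓ) (by linarith) anℓ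
        rwa [abs_neg, abs_of_pos hℓ0] at this)
    rw [← hℓ, abs_of_pos hℓ0, hCl] at this
    exact this
  have b2 : ‖∫ x in s..t, g (x + (ℓ : ℂ) * I)‖ ≤ C * √ℓ := by
    have := intervalIntegral.norm_integral_le_of_norm_le_const (a := s) (b := t)
      (f := fun x : ℝ => g (x + (ℓ : ℂ) * I)) (C := C / √ℓ) (by
        intro x hx
        rw [uIoc_of_le hst.le] at hx
        have := hb x (hsub x ⟨hx.1.le, hx.2⟩) ℓ (by linarith) aℓ
        rwa [abs_of_pos hℓ0] at this)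
    rw [← hℓ, abs_of_pos hℓ0, hCl] at this
    exact this
  have bv : ∀ x ∈ Icc (7 / 8 : ℝ) (5 / 4), x ∉ FF →
      ‖∫ y in (-ℓ)..ℓ, g (x + y * I)‖ ≤ 4 * C * √ℓ := by
    intro x hx hxF
    apply full_sing _ hℓ0.le
    · apply cont_vert
      intro y hy
      exact hd x hx y ((abs_le.mpr hy).trans hl) (Or.inr hxF)
    · intro y hy hyl
      exact hb x hx y hy (hyl.trans hl)
  unfold RI
  have n1 := norm_sub_le ((∫ x in s..t, g (x + ((-ℓ : ℝ) : ℂ) * I)) -
    (∫ x in s..t, g (x + (ℓ : ℂ) * I)) + I * (∫ y in (-ℓ)..ℓ, g (t + y * I)))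
    (I * (∫ y in (-ℓ)..ℓ, g (s + y * I)))
  have n2 := norm_add_le ((∫ x in s..t, g (x + ((-ℓ : ℝ) : ℂ) * I)) -
    (∫ x in s..t, g (x + (ℓ : ℂ) * I))) (I * (∫ y in (-ℓ)..ℓ, g (t + y * I)))
  have n3 := norm_sub_le (∫ x in s..t, g (x + ((-ℓ : ℝ) : ℂ) * I))
    (∫ x in s..t, g (x + (ℓ : ℂ) * I))
  have n4 : ‖I * (∫ y in (-ℓ)..ℓ, g (t + y * I))‖ ≤ 4 * C * √ℓ := by
    rw [norm_mul, Complex.norm_I, one_mul]; exact bv t ht htF
  have n5 : ‖I * (∫ y in (-ℓ)..ℓ, g (s + y * I))‖ ≤ 4 * C * √ℓ := by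
    rw [norm_mul, Complex.norm_I, one_mul]; exact bv s hs hsF
  linarith

/-- The left ends of the covering intervals. -/
noncomputable def pp (m j : ℕ) : ℝ := ps ((j : ℝ) / 2 ^ (m + 1))

/-- The length of the covering intervals. -/
noncomputable def dl (m : ℕ) : ℝ := 1 / 16 ^ (m + 1) / 7

theorem dl_pos (m : ℕ) : 0 < dl m := by unfold dl; positivity

theorem dl_le (m : ℕ) : dl m ≤ 1 / 112 := by
  unfold dl
  have : (16 : ℝ) ≤ 16 ^ (m + 1) := by
    calc (16 : ℝ) = 16 ^ 1 := (pow_one _).symm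
      _ ≤ 16 ^ (m + 1) := by gcongr <;> norm_num
  rw [div_div, div_le_div_iff₀ (by positivity) (by norm_num)]
  linarith

theorem pp_bounds {m j : ℕ} (hj : j < 2 ^ (m + 1)) : 1 ≤ pp m j ∧ pp m j ≤ 8 / 7 := by
  have h1 : (j : ℝ) / 2 ^ (m + 1) < 1 := by
    rw [div_lt_one (by positivity)]
    exact_mod_cast hj
  exact ⟨ps_ge (by positivity), ps_le (by positivity) h1⟩

theorem pp_gap {m j : ℕ} (hj : j + 1 < 2 ^ (m + 1)) : pp m j + 7 * dl m ≤ pp m (j + 1) := by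
  have := FF_gap m hj
  unfold pp dl
  have e : 7 * (1 / 16 ^ (m + 1) / 7 : ℝ) = 1 / 16 ^ (m + 1) := by ring
  rw [e]
  exact this

theorem pp_mono {m i j : ℕ} (hij : i < j) (hj : j < 2 ^ (m + 1)) :
    pp m i + 7 * dl m ≤ pp m j := by
  induction j with
  | zero => omega
  | succ j ih =>
    have h1 := pp_gap hj
    rcases Nat.lt_succ_iff_lt_or_eq.mp hij with h | h
    · have := ih h (by omega)
      have := dl_pos m
      linarith
    · rw [h]; exact h1

theorem pp_cover (m : ℕ) {w : ℝ} (hw : w ∈ FF) :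
    ∃ j : ℕ, j < 2 ^ (m + 1) ∧ pp m j ≤ w ∧ w ≤ pp m j + dl m := FF_cover (m + 1) hw

theorem left_notMem {m j : ℕ} (hj : j < 2 ^ (m + 1)) : pp m j - dl m ∉ FF := by
  intro h
  obtain ⟨i, hi, h1, h2⟩ := pp_cover m h
  have hd := dl_pos m
  rcases lt_trichotomy i j with h3 | h3 | h3
  · have := pp_mono h3 hj; linarith
  · subst h3; linarith
  · have := pp_mono h3 hi; linarith

theorem right_notMem {m j : ℕ} (hj : j < 2 ^ (m + 1)) : pp m j + 2 * dl m ∉ FF := by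
  intro h
  obtain ⟨i, hi, h1, h2⟩ := pp_cover m h
  have hd := dl_pos m
  rcases lt_trichotomy i j with h3 | h3 | h3
  · have := pp_mono h3 hj; linarith
  · subst h3; linarith
  · have := pp_mono h3 hi; linarith

include hy0 hC hd hb in
theorem strip_chain (m : ℕ) (hm : 3 * dl m ≤ y0) (j : ℕ) (hj : j < 2 ^ (m + 1)) :
    ‖RI g (7 / 8) (pp m j + 2 * dl m) (-y0) y0‖ ≤ (j + 1) * (10 * C * √(3 * dl m)) := by
  have hdp := dl_pos m
  have hdl := dl_le m
  have ay0 : |y0| ≤ y0 := by rw [abs_of_pos (by linarith)]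
  have any0 : |(-y0)| ≤ y0 := by rw [abs_neg]; exact ay0
  have hIcc : ∀ i : ℕ, i < 2 ^ (m + 1) → pp m i - dl m ∈ Icc (7 / 8 : ℝ) (5 / 4) ∧
      pp m i + 2 * dl m ∈ Icc (7 / 8 : ℝ) (5 / 4) := by
    intro i hi
    obtain ⟨h1, h2⟩ := pp_bounds hi
    constructor <;> constructor <;> linarith
  have h78 : (7 / 8 : ℝ) ∈ Icc (7 / 8 : ℝ) (5 / 4) := ⟨le_rfl, by norm_num⟩
  have hadd : ∀ s t u : ℝ, s ∈ Icc (7 / 8 : ℝ) (5 / 4) → t ∈ Icc (7 / 8 : ℝ) (5 / 4) →
      u ∈ Icc (7 / 8 : ℝ) (5 / 4) →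
      RI g s u (-y0) y0 = RI g s t (-y0) y0 + RI g t u (-y0) y0 := by
    intro s t u hs ht hu
    exact RI_horiz g (int_horiz g hd hs ht any0 (by linarith))
      (int_horiz g hd ht hu any0 (by linarith)) (int_horiz g hd hs ht ay0 (by linarith))
      (int_horiz g hd ht hu ay0 (by linarith))
  have hsm : ∀ i : ℕ, i < 2 ^ (m + 1) →
      ‖RI g (pp m i - dl m) (pp m i + 2 * dl m) (-y0) y0‖ ≤ 10 * C * √(3 * dl m) := by
    intro i hi
    have h1 := strip_small g hC hd hb (hIcc i hi).1 (hIcc i hi).2 (by linarith)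
      (left_notMem hi) (right_notMem hi) (by linarith)
    have e : pp m i + 2 * dl m - (pp m i - dl m) = 3 * dl m := by ring
    rwa [e] at h1
  induction j with
  | zero =>
    rw [hadd _ _ _ h78 (hIcc 0 hj).1 (hIcc 0 hj).2]
    have h1 : RI g (7 / 8) (pp m 0 - dl m) (-y0) y0 = 0 := by
      apply strip_gap g hy0 hd h78 (hIcc 0 hj).1 (hIcc 0 hj).1.1
      intro x hx hxF
      obtain ⟨i, hi, h2, h3⟩ := pp_cover m hxF
      rcases Nat.eq_zero_or_pos i with h4 | h4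
      · subst h4; linarith [hx.2]
      · have := pp_mono h4 hi; linarith [hx.2]
    rw [h1, zero_add]
    simpa using hsm 0 hj
  | succ j ih =>
    have hj' : j < 2 ^ (m + 1) := by omega
    have hg := pp_gap hj
    rw [hadd _ (pp m j + 2 * dl m) _ h78 (hIcc j hj').2 (hIcc (j + 1) hj).2,
      hadd _ _ _ (hIcc j hj').2 (hIcc (j + 1) hj).1 (hIcc (j + 1) hj).2]
    have h1 : RI g (pp m j + 2 * dl m) (pp m (j + 1) - dl m) (-y0) y0 = 0 := by
      apply strip_gap g hy0 hd (hIcc j hj').2 (hIcc (j + 1) hj).1 (by linarith)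
      intro x hx hxF
      obtain ⟨i, hi, h2, h3⟩ := pp_cover m hxF
      rcases lt_trichotomy i (j + 1) with h4 | h4 | h4
      · rcases Nat.lt_succ_iff_lt_or_eq.mp h4 with h5 | h5
        · have := pp_mono h5 hj'; linarith [hx.1]
        · subst h5; linarith [hx.1]
      · subst h4; linarith [hx.2]
      · have := pp_mono h4 hi; linarith [hx.2]
    rw [h1, zero_add]
    refine (norm_add_le _ _).trans ?_
    have h2 := ih hj'
    have h3 := hsm (j + 1) hj
    push_cast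
    linarith

include hy0 hC hd hb in
/-- The integral over the boundary of a flat rectangle around the Cantor set vanishes. -/
theorem strip_zero : RI g (7 / 8) (5 / 4) (-y0) y0 = 0 := by
  have ay0 : |y0| ≤ y0 := by rw [abs_of_pos (by linarith)]
  have any0 : |(-y0)| ≤ y0 := by rw [abs_neg]; exact ay0
  have h78 : (7 / 8 : ℝ) ∈ Icc (7 / 8 : ℝ) (5 / 4) := ⟨le_rfl, by norm_num⟩
  have h54 : (5 / 4 : ℝ) ∈ Icc (7 / 8 : ℝ) (5 / 4) := ⟨by norm_num, le_rfl⟩
  have hbound : ∀ m : ℕ, 3 * dl m ≤ y0 → ‖RI g (7 / 8) (5 / 4) (-y0) y0‖ ≤ 10 * C / 2 ^ (m + 1) := by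
    intro m hm
    have hdp := dl_pos m
    have hdl := dl_le m
    set J := 2 ^ (m + 1) - 1 with hJ
    have hJ1 : J < 2 ^ (m + 1) := by
      have : 0 < 2 ^ (m + 1) := by positivity
      omega
    have hJ2 : (J : ℝ) + 1 = 2 ^ (m + 1) := by
      have : J + 1 = 2 ^ (m + 1) := by
        have : 0 < 2 ^ (m + 1) := by positivity
        omega
      exact_mod_cast this
    obtain ⟨hp1, hp2⟩ := pp_bounds hJ1
    have ht : pp m J + 2 * dl m ∈ Icc (7 / 8 : ℝ) (5 / 4) := ⟨by linarith, by linarith⟩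
    have h1 := strip_chain g hy0 hC hd hb m hm J hJ1
    have h2 : RI g (7 / 8) (5 / 4) (-y0) y0 = RI g (7 / 8) (pp m J + 2 * dl m) (-y0) y0 +
        RI g (pp m J + 2 * dl m) (5 / 4) (-y0) y0 :=
      RI_horiz g (int_horiz g hd h78 ht any0 (by linarith))
        (int_horiz g hd ht h54 any0 (by linarith)) (int_horiz g hd h78 ht ay0 (by linarith))
        (int_horiz g hd ht h54 ay0 (by linarith))
    have h3 : RI g (pp m J + 2 * dl m) (5 / 4) (-y0) y0 = 0 := by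
      apply strip_gap g hy0 hd ht h54 ht.2
      intro x hx hxF
      obtain ⟨i, hi, h4, h5⟩ := pp_cover m hxF
      rcases lt_trichotomy i J with h6 | h6 | h6
      · have := pp_mono h6 hJ1; linarith [hx.1]
      · subst h6; linarith [hx.1]
      · omega
    rw [h2, h3, add_zero]
    refine h1.trans ?_
    rw [hJ2]
    have h7 : √(3 * dl m) ≤ 1 / 4 ^ (m + 1) := by
      rw [Real.sqrt_le_left (by positivity)]
      unfold dl
      rw [div_pow, one_pow, ← pow_mul, mul_comm (m + 1) 2, pow_mul]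
      norm_num
      have : (0 : ℝ) < (16 ^ (m + 1))⁻¹ := by positivity
      linarith
    have h8 : (2 : ℝ) ^ (m + 1) * (1 / 4 ^ (m + 1)) = 1 / 2 ^ (m + 1) := by
      have : (4 : ℝ) ^ (m + 1) = 2 ^ (m + 1) * 2 ^ (m + 1) := by
        rw [← mul_pow]; norm_num
      rw [this]
      field_simp
    calc 2 ^ (m + 1) * (10 * C * √(3 * dl m)) ≤ 2 ^ (m + 1) * (10 * C * (1 / 4 ^ (m + 1))) := by
          gcongr
      _ = 10 * C * (2 ^ (m + 1) * (1 / 4 ^ (m + 1))) := by ring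
      _ = 10 * C / 2 ^ (m + 1) := by rw [h8]; ring
  have hlim : Tendsto (fun m : ℕ => 10 * C / 2 ^ (m + 1)) atTop (𝓝 0) := by
    have h1 : Tendsto (fun m : ℕ => (2 : ℝ) ^ (m + 1)) atTop atTop :=
      (tendsto_pow_atTop_atTop_of_one_lt (by norm_num)).comp (tendsto_add_atTop_nat 1)
    exact h1.const_div_atTop _
  have hev : ∀ᶠ m : ℕ in atTop, 3 * dl m ≤ y0 := by
    have h1 : Tendsto (fun m : ℕ => 3 * dl m) atTop (𝓝 0) := by
      have h2 : Tendsto (fun m : ℕ => (16 : ℝ) ^ (m + 1)) atTop atTop :=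
        (tendsto_pow_atTop_atTop_of_one_lt (by norm_num)).comp (tendsto_add_atTop_nat 1)
      have h3 := h2.const_div_atTop (3 / 7)
      refine h3.congr fun m => ?_
      unfold dl
      field_simp
    exact h1.eventually (ge_mem_nhds hy0)
  have h0 : ‖RI g (7 / 8) (5 / 4) (-y0) y0‖ ≤ 0 :=
    ge_of_tendsto hlim (hev.mono fun m hm => hbound m hm)
  exact norm_le_zero_iff.mp h0

end

end Pool.Agent.R860.HD
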